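import Pool.Agent.H85.LSP.Def

/-!
# LSP: facts on the distance to the nearest integer
-/

set_option autoImplicit false

namespace Pool.LSP

theorem nr_nonneg (x : ℝ) : 0 ≤ nr x := abs_nonneg _

theorem nr_le_half (x : ℝ) : nr x ≤ 1 / 2 := abs_sub_round x

/-- `nr` is the minimum of the distances to the integers. -/
theorem nr_le_int (x : ℝ) (n : ℤ) : nr x ≤ |x - n| := round_le x n

theorem nr_add_int (x : ℝ) (n : ℤ) : nr (x + n) = nr x := by
  unfold nr
  rw [round_add_intCast]
  push_cast
  congr 1
  ring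

theorem nr_neg (x : ℝ) : nr (-x) = nr x := by
  apply le_antisymm
  · have h := nr_le_int (-x) (-round x)
    have e : |(-x) - ((-round x : ℤ) : ℝ)| = nr x := by
      unfold nr
      push_cast
      rw [← abs_neg]
      congr 1
      ring
    rwa [e] at h
  · have h := nr_le_int x (-round (-x))
    have e : |x - ((-round (-x) : ℤ) : ℝ)| = nr (-x) := by
      unfold nr
      push_cast
      rw [← abs_neg]
      congr 1
      ring
    rwa [e] at h

theorem nr_le_add (x y : ℝ) : nr x ≤ nr y + |x - y| := by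
  have h := nr_le_int x (round y)
  have h2 : |x - (round y : ℝ)| ≤ |x - y| + |y - round y| := by
    have e : x - (round y : ℝ) = (x - y) + (y - round y) := by ring
    rw [e]
    exact abs_add_le _ _
  unfold nr at *
  linarith

theorem abs_nr_sub (x y : ℝ) : |nr x - nr y| ≤ |x - y| := by
  rw [abs_le]
  have h1 := nr_le_add x y
  have h2 := nr_le_add y x
  rw [abs_sub_comm y x] at h2
  constructor <;> linarith

/-- Points of the interval `[0, 1/2]`. -/
theorem nr_of_mem {x : ℝ} (h0 : 0 ≤ x) (h1 : x ≤ 1 / 2) : nr x = x := by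
  apply le_antisymm
  · have h := nr_le_int x 0
    simpa [abs_of_nonneg h0] using h
  · unfold nr
    rcases le_or_gt (round x) 0 with h | h
    · have : ((round x : ℤ) : ℝ) ≤ 0 := by exact_mod_cast h
      have := le_abs_self (x - round x)
      linarith
    · have h' : (1 : ℝ) ≤ ((round x : ℤ) : ℝ) := by exact_mod_cast h
      have := neg_abs_le (x - round x)
      linarith

theorem hd_nonneg (x : ℝ) : 0 ≤ hd x := nr_nonneg _

theorem hd_le_half (x : ℝ) : hd x ≤ 1 / 2 := nr_le_half _

theorem hd_add_int (x : ℝ) (n : ℤ) : hd (x + n) = hd x := by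
  unfold hd
  rw [← nr_add_int (x - 1 / 2) n]
  congr 1
  ring

theorem abs_hd_sub (x y : ℝ) : |hd x - hd y| ≤ |x - y| := by
  unfold hd
  have h := abs_nr_sub (x - 1 / 2) (y - 1 / 2)
  have e : x - 1 / 2 - (y - 1 / 2) = x - y := by ring
  rwa [e] at h

theorem hd_ge_sub (x y : ℝ) : hd y - |x - y| ≤ hd x := by
  have h := abs_hd_sub x y
  rw [abs_le] at h
  linarith [h.1]

/-- A nearest element of `1/2 + ℤ`. -/
theorem exists_half (x : ℝ) : ∃ p : ℤ, hd x = |x - (p + 1 / 2)| := by
  refine ⟨round (x - 1 / 2), ?_⟩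
  unfold hd nr
  congr 1
  ring

theorem exists_of_hd_lt {x η : ℝ} (h : hd x < η) : ∃ p : ℤ, |x - (p + 1 / 2)| < η := by
  obtain ⟨p, hp⟩ := exists_half x
  exact ⟨p, by rwa [← hp]⟩

theorem hd_le_half_int (x : ℝ) (p : ℤ) : hd x ≤ |x - (p + 1 / 2)| := by
  have h := nr_le_int (x - 1 / 2) p
  unfold hd
  have e : x - 1 / 2 - (p : ℝ) = x - (p + 1 / 2) := by ring
  rwa [e] at h

/-- The two distances add up to `1/2`. -/
theorem hd_eq (x : ℝ) : hd x = 1 / 2 - nr x := by
  obtain ⟨y, hy, hy0, hy1⟩ : ∃ (y : ℝ), x = y + round x ∧ -(1 / 2) ≤ y ∧ y ≤ 1 / 2 := by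
    have h := abs_sub_round x
    rw [abs_le] at h
    exact ⟨x - round x, by ring, by linarith [h.1], h.2⟩
  have h1 : nr x = nr y := by
    conv_lhs => rw [hy]
    exact nr_add_int _ _
  have h2 : hd x = hd y := by
    conv_lhs => rw [hy]
    exact hd_add_int _ _
  rw [h1, h2]
  rcases le_total 0 y with h0 | h0
  · rw [nr_of_mem h0 hy1]
    unfold hd
    rw [← nr_neg, nr_of_mem (by linarith) (by linarith)]
    ring
  · rw [← nr_neg y, nr_of_mem (by linarith) (by linarith)]
    have e : hd y = nr (y + 1 / 2) := by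
      unfold hd
      have := nr_add_int (y - 1 / 2) 1
      rw [← this]
      congr 1
      push_cast
      ring
    rw [e, nr_of_mem (by linarith) (by linarith)]
    ring

theorem nr_eq (x : ℝ) : nr x = 1 / 2 - hd x := by
  rw [hd_eq]
  ring

/-- `nr (a x)` for an integer `a` depends on `nr x` only. -/
theorem nr_int_mul (a : ℤ) (x : ℝ) : nr (a * x) = nr (a * nr x) := by
  have hx : x = (x - round x) + round x := by ring
  have h1 : nr (a * x) = nr (a * (x - round x)) := by
    have e : (a : ℝ) * x = a * (x - round x) + ((a * round x : ℤ) : ℝ) := by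
      push_cast
      ring
    rw [e, nr_add_int]
  rw [h1]
  unfold nr
  rcases le_total 0 (x - round x) with h | h
  · rw [abs_of_nonneg h]
  · rw [abs_of_nonpos h]
    have e : (a : ℝ) * -(x - round x) = -(a * (x - round x)) := by ring
    rw [e]
    have := nr_neg (a * (x - round x))
    unfold nr at this
    exact this.symm

end Pool.LSP
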