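/-
helper85. LSQ: the case `k = 0` of MP_cae670_nt. Definitions and the statements of the modules.
Page: K_LSQ_helper85.md.
-/
import Pool.Agent.H85.LSP.Nr

set_option autoImplicit false

namespace Pool.LSP

open Polynomial Filter Topology Finset
open scoped ComplexConjugate

/-! ### The abstract theorem -/

/-- `g` decays in the past. -/
def Bk (l C : ℝ) (g : ℤ → ℝ) : Prop := ∀ m : ℕ, |g (-(m : ℤ))| ≤ C * l ^ (-(m : ℤ))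

/-- A finite dimensional space of sequences, stable under the shift, with a growing direction. -/
structure Fr (V : Submodule ℝ (ℤ → ℝ)) (β : ℂ) (l : ℝ) : Prop where
  hl : 1 < l
  hlb : l ≤ ‖β‖
  fin : FiniteDimensional ℝ V
  sh : ∀ g ∈ V, ∀ t : ℤ, (fun n => g (n + t)) ∈ V
  dir : ∀ z : ℂ, (fun n : ℤ => (z * β ^ n).re) ∈ V
  bk : ∀ g ∈ V, ∃ C : ℝ, 0 ≤ C ∧ Bk l C g

/-- The levels: `blk n` is the level which decides the `n`-th step after the hit, `m n` is the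
margin obtained for this step. -/
def Lev (V : Submodule ℝ (ℤ → ℝ)) (M : ℕ) (ε : ℝ) (blk : ℕ → ℕ) (m : ℕ → ℝ) : Prop :=
  ∀ i L : ℕ, ∃ g : ℕ → ℤ → ℝ,
    (∀ k, k < M → g k ∈ V ∧ (∃ p : ℤ, g k 0 = p) ∧
      (∀ n : ℤ, -(L : ℤ) ≤ n → n < 0 → nr (g k n) ≤ ε * (1 / 2) ^ i) ∧
      (∀ n : ℕ, 1 ≤ n → blk n < i → nr (g k n) ≤ m n / 4 * (1 / 2) ^ (i - blk n))) ∧
    ∀ φ : ℕ → ℝ, ∃ k, k < M ∧ ∀ n : ℕ, 1 ≤ n → blk n = i → m n ≤ hd (φ n + g k n)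

/-- Levels for every `ε`, with a late margin independent of `ε`. -/
def Jmp (V : Submodule ℝ (ℤ → ℝ)) : Prop :=
  ∃ (M : ℕ) (μs : ℝ), 0 < μs ∧ ∀ ε : ℝ, 0 < ε →
    ∃ (μF : ℝ) (R : ℕ) (blk : ℕ → ℕ) (m : ℕ → ℝ), 0 < μF ∧ (∀ n, 1 ≤ n → μF ≤ m n) ∧
      (∀ n, 1 ≤ n → R ≤ n → μs ≤ m n) ∧ Lev V M ε blk m

/-- ABS: the abstract theorem -/
def ABSStmt : Prop :=
  ∀ (V : Submodule ℝ (ℤ → ℝ)) (β : ℂ) (l : ℝ), Fr V β l → Jmp V →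
    ∃ v : ℝ, 0 < v ∧ v < 1 / 2 ∧ ∀ c ∈ Set.Icc v (1 / 2), ∃ ξ ∈ V,
      limsup (fun n : ℕ => nr (ξ n)) atTop = c

/-- avoidance for `L` phases: initial size `κ`, early margin `κ'`, late margin `μ` -/
def Av (β : ℂ) (L R : ℕ) (κ κ' μ : ℝ) : Prop :=
  ∀ (T : ℕ) (σ : ℕ → ℕ → ℝ), ∃ z : ℂ, ‖z‖ ≤ κ ∧ ∀ n i : ℕ, n ≤ T → i < L →
    κ' ≤ hd (σ n i + (z * β ^ n).re) ∧ (R < n → μ ≤ hd (σ n i + (z * β ^ n).re))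

/-- AVX: avoidance (from `GEN`) -/
def AVXStmt : Prop :=
  ∀ (β : ℂ) (L s : ℕ), 1 < ‖β‖ → 8 * qq (L * (s + 1)) ^ 2 ≤ ‖β‖ ^ s →
    Av β L s (1 / (4 * ‖β‖ ^ s)) (1 / (4 * ‖β‖ ^ s * qq (L * (s + 1))))
      (1 / (4 * qq (L * (s + 1)) ^ 2))

/-- CHX: choice of `s` (from `CON`) -/
def CHXStmt : Prop :=
  ∀ (ρ K : ℝ) (M : ℕ), 1 < ρ → ∃ s : ℕ, 1 ≤ s ∧
    K * qq (M * (2 * s + 1) * (s + 1)) ^ 2 ≤ ρ ^ s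

/-- hitting `c` modulo one, at a time `≤ H`, by a perturbation of size `r`, with margin `μ` before -/
def Ht (β : ℂ) (r c μ : ℝ) (H : ℕ) : Prop :=
  ∀ Y : ℕ → ℝ, ∃ h : ℕ, 1 ≤ h ∧ h ≤ H ∧ ∃ z : ℂ, ‖z‖ ≤ r ∧
    (∃ p : ℤ, Y h + (z * β ^ h).re = c + p) ∧
    ∀ j : ℕ, 0 < j → j < h → μ ≤ hd (Y j + (z * β ^ j).re)

/-- TRM: hitting -/
def TRMStmt : Prop :=
  ∀ (β : ℂ) (r c : ℝ) (H : ℕ), 1 < ‖β‖ → 0 < r → 1 ≤ H → 1 ≤ r * ‖β‖ ^ H →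
    |1 / 2 - c| ≤ r * (1 - 1 / ‖β‖) / 4 → Ht β r c (r * (1 - 1 / ‖β‖) / 4) H

/-- HKX: induction on the number of levels -/
def HKXStmt : Prop :=
  ∀ (V : Submodule ℝ (ℤ → ℝ)) (β : ℂ) (l : ℝ) (M H R : ℕ) (κ κ' μ ν ε c : ℝ) (blk : ℕ → ℕ)
    (m : ℕ → ℝ), Fr V β l → 1 ≤ M → κ' ≤ κ → 8 * κ ≤ μ → 0 < ν → 4 * ν ≤ κ' → 0 < ε →
    ε ≤ ν / 2 → (∀ n, 1 ≤ n → 0 ≤ m n) → Av β (M * (H + 1)) R κ κ' μ →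
    Ht β (κ' / 2) c (2 * ν) H → Lev V M ε blk m →
    ∀ K : ℕ, ∃ J₀ : ℕ, ∀ J : ℕ, J₀ ≤ J → ∀ X ∈ V, ∃ h : ℕ, 1 ≤ h ∧ h ≤ H ∧ ∃ X' ∈ V,
      Bk l (2 * κ) (fun n => X' n - X n) ∧
      (∀ n : ℕ, n < J + h → ν * (1 + (1 / 2) ^ K) ≤ hd (X' n)) ∧
      (∃ p : ℤ, X' ((J + h : ℕ) : ℤ) = c + p) ∧
      ∀ n : ℕ, 1 ≤ n → blk n < K →
        m n * (3 / 4 + 1 / 4 * (1 / 2) ^ (K - 1 - blk n)) ≤ hd (X' ((J + h + n : ℕ) : ℤ))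

/-- a stage: from `X`, hit `c` at some time `N`, then `F` good steps -/
def Stg (V : Submodule ℝ (ℤ → ℝ)) (l κ ν μF c : ℝ) (R : ℕ) : Prop :=
  ∀ F : ℕ, ∀ X ∈ V, ∃ N : ℕ, 1 ≤ N ∧ ∃ X' ∈ V, Bk l (2 * κ) (fun n => X' n - X n) ∧
    (∀ n : ℕ, n < N → ν ≤ hd (X' n)) ∧ (∃ p : ℤ, X' N = c + p) ∧
    ∀ n : ℕ, 1 ≤ n → n ≤ F → μF ≤ hd (X' ((N + n : ℕ) : ℤ)) ∧
      (R ≤ n → 16 * κ ≤ hd (X' ((N + n : ℕ) : ℤ)))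

/-- LMX: the limit of the stages -/
def LMXStmt : Prop :=
  ∀ (V : Submodule ℝ (ℤ → ℝ)) (β : ℂ) (l κ ν μF c : ℝ) (R : ℕ), Fr V β l → 0 < κ → 0 < ν →
    0 < μF → 0 ≤ c → c ≤ 1 / 2 → 1 / 2 - c ≤ ν / 2 → 1 / 2 - c ≤ μF / 2 → 1 / 2 - c ≤ 12 * κ →
    Stg V l κ ν μF c R → ∃ ξ ∈ V, limsup (fun n : ℕ => nr (ξ n)) atTop = c

/-- supply of the first kind -/
def Spa (V : Submodule ℝ (ℤ → ℝ)) (s₀ : ℝ) : Prop :=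
  ∀ (δ : ℝ) (L : ℕ), 0 < δ → ∃ g ∈ V,
    (∀ n : ℤ, -(L : ℤ) ≤ n → n < 0 → nr (g n) ≤ δ) ∧ s₀ ≤ nr (g 0)

/-- supply of the second kind -/
def Spb (V : Submodule ℝ (ℤ → ℝ)) (t : ℝ) : Prop :=
  ∀ (δ : ℝ) (L : ℕ), 0 < δ → ∃ g ∈ V, ∃ (r : ℤ → ℝ) (a : ℝ), δ / 2 ≤ a ∧ a ≤ δ ∧
    (∀ n : ℤ, -(L : ℤ) ≤ n → |r n| ≤ a ∧ ∃ p : ℤ, g n = p - r n) ∧ a ≤ t * |r 0|

/-- JMA: levels from a supply of the first kind -/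
def JMAStmt : Prop :=
  ∀ (V : Submodule ℝ (ℤ → ℝ)) (β : ℂ) (l s₀ : ℝ), Fr V β l → 0 < s₀ → Spa V s₀ → Jmp V

/-- JMB: levels from a supply of the second kind -/
def JMBStmt : Prop :=
  ∀ (V : Submodule ℝ (ℤ → ℝ)) (β : ℂ) (l t : ℝ), Fr V β l → 1 < t → t < ‖β‖ → Spb V t → Jmp V

/-! ### The supply, from an irreducible polynomial -/

/-- The real sequences `∑ Re (z_α α ^ n)`, sum over the roots of modulus greater than one. -/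
def Vo (Q : ℤ[X]) : Submodule ℝ (ℤ → ℝ) :=
  Submodule.span ℝ {g | ∃ α ∈ Out Q, ∃ z : ℂ, g = fun n : ℤ => (z * α ^ n).re}

/-- FRM: `Vo Q` is a frame -/
def FRMStmt : Prop := ∀ Q : ℤ[X], ∀ β ∈ Out Q, ∃ l : ℝ, Fr (Vo Q) β l

/-- MVO: the elements of `Vo Q` are sequences of the problem -/
def MVOStmt : Prop :=
  ∀ (P Q : ℤ[X]) (k : ℕ), P ≠ 0 → Q ∣ P → ∀ ξ ∈ Vo Q, ∃ g : ℂ → ℂ[X], Xi P k g ∧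
    ∀ n : ℕ, xs P g n = ξ n

/-- Weights for the roots. -/
structure Wt (Q : ℤ[X]) (w : ℂ → ℂ) : Prop where
  ne : ∀ α ∈ Rt Q, w α ≠ 0
  cj : ∀ α, w (conj α) = conj (w α)
  int : ∀ n : ℕ, ∃ x : ℤ,
    (Q.leadingCoeff : ℂ) ^ n * ∑ α ∈ (Rt Q).toFinset, w α * α ^ n = x

/-- WTS: existence of the weights (from `EUL`) -/
def WTSStmt : Prop := ∀ Q : ℤ[X], (Rt Q).Nodup → 1 ≤ Q.natDegree → ∃ w : ℂ → ℂ, Wt Q w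

/-- The sequence `∑ w_α A(α) α ^ n`. -/
noncomputable def us (S : Finset ℂ) (w : ℂ → ℂ) (A : ℤ[X]) (n : ℤ) : ℂ :=
  ∑ α ∈ S, w α * aeval α A * α ^ n

/-- DVD: the irreducible polynomial of an algebraic number (Gauss) -/
def DVDStmt : Prop :=
  ∀ Q : ℤ[X], Irreducible Q → 1 ≤ Q.natDegree → ∀ α ∈ Rt Q, ∀ A : ℤ[X], aeval α A = 0 → Q ∣ A

/-- PHL: small values at the roots of modulus at most one (pigeonhole) -/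
def PHLStmt : Prop :=
  ∀ Q : ℤ[X], (Rt Q).Nodup → (Out Q).Nonempty → ∀ (δ : ℝ) (a : ℤ), 0 < δ → a ≠ 0 →
    ∃ B : ℤ[X], B ≠ 0 ∧ B.natDegree < Q.natDegree ∧
      ∀ γ ∈ Rt Q, ‖γ‖ ≤ 1 → ‖aeval γ (C a * B)‖ ≤ δ

/-- FAT: if the sequence is integral then the leading coefficient is a unit -/
def FATStmt : Prop :=
  ∀ (Q : ℤ[X]) (w : ℂ → ℂ), Irreducible Q → 1 ≤ Q.natDegree → (Rt Q).Nodup → Wt Q w →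
    ∀ A : ℤ[X], A ≠ 0 → A.natDegree < Q.natDegree →
      (∀ n : ℕ, ∃ x : ℤ, us (Rt Q).toFinset w A n = x) → IsUnit Q.leadingCoeff

/-- SUA: the supply of the first kind -/
def SUAStmt : Prop :=
  ∀ Q : ℤ[X], Irreducible Q → 1 ≤ Q.natDegree → (Rt Q).Nodup → (Out Q).Nonempty →
    ¬ IsUnit Q.leadingCoeff → ∃ s₀ : ℝ, 0 < s₀ ∧ Spa (Vo Q) s₀

/-- SUB: the supply of the second kind -/
def SUBStmt : Prop :=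
  ∀ Q : ℤ[X], Irreducible Q → Q.Monic → (Rt Q).Nodup → (Out Q).Nonempty →
    (∃ γ ∈ Rt Q, ‖γ‖ = 1) → ∀ t : ℝ, 1 < t → Spb (Vo Q) t

/-- The exceptional polynomials: monic, with all roots on one circle. -/
def Exc (P : ℤ[X]) : Prop := P.Monic ∧ ∃ ρ : ℝ, ∀ α ∈ Rt P, ‖α‖ = ρ

/-- The final theorem. -/
def Main2Stmt : Prop :=
  ∀ P : ℤ[X], Adm P → (∀ k : ℕ, (k = 0 → ¬ Exc P) → Ter P k) ∧
    ((∃ (m : ℕ) (a : ℤ), 1 ≤ m ∧ ∀ α ∈ Rt P, α ^ m = (a : ℂ)) → ¬ Itv P 0)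

end Pool.LSP
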