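import Pool.Agent.H85.LSP.Def2
import Pool.Agent.H21.LSP.PIG

/-!
# LSQ, module ABS: the abstract theorem
-/

set_option autoImplicit false

namespace Pool.LSP

open Finset Filter

theorem t_abs (hAVX : AVXStmt) (hCHX : CHXStmt) (hTRM : TRMStmt) (hHKX : HKXStmt)
    (hLMX : LMXStmt) : ABSStmt := by
  intro V β l hF hJ
  have hb : 1 < ‖β‖ := lt_of_lt_of_le hF.hl hF.hlb
  obtain ⟨M, μs, hμs, hJ⟩ := hJ
  have hM : 1 ≤ M := by
    obtain ⟨_, _, blk, m, _, _, _, hL⟩ := hJ 1 one_pos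
    obtain ⟨g, _, hg⟩ := hL 0 0
    obtain ⟨k, hk, _⟩ := hg (fun _ => 0)
    omega
  obtain ⟨s, hs1, hs⟩ := hCHX ‖β‖ (8 * (1 + 1 / μs)) M hb
  obtain ⟨q, hq⟩ : ∃ q : ℝ, q = qq (M * (2 * s + 1) * (s + 1)) := ⟨_, rfl⟩
  have hq32 : 32 ≤ q := by
    rw [hq]
    exact qq_ge _
  rw [← hq] at hs
  obtain ⟨P, hP⟩ : ∃ P : ℝ, P = ‖β‖ ^ s := ⟨_, rfl⟩
  have hP0 : 0 < P := by
    rw [hP]
    positivity
  rw [← hP] at hs
  have hμ1 : 0 < 1 / μs := by positivity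
  have hq2 : 0 < q ^ 2 := by positivity
  have h8 : 8 * q ^ 2 ≤ P := by
    refine le_trans ?_ hs
    nlinarith
  have hPμ : 8 / μs ≤ P := by
    refine le_trans ?_ hs
    have e : 8 / μs = 8 * (1 / μs) * 1 := by ring
    rw [e]
    have : (1 : ℝ) ≤ q ^ 2 := by nlinarith
    refine mul_le_mul (by linarith) this zero_le_one (by positivity)
  have hAv := hAVX β (M * (2 * s + 1)) s hb (by
    rw [← hq, ← hP]
    exact h8)
  rw [← hq, ← hP] at hAv
  obtain ⟨κ, hκ⟩ : ∃ κ : ℝ, κ = 1 / (4 * P) := ⟨_, rfl⟩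
  obtain ⟨κ', hκ'⟩ : ∃ κ : ℝ, κ = 1 / (4 * P * q) := ⟨_, rfl⟩
  obtain ⟨μ, hμ⟩ : ∃ κ : ℝ, κ = 1 / (4 * q ^ 2) := ⟨_, rfl⟩
  rw [← hκ, ← hκ', ← hμ] at hAv
  have hκ0 : 0 < κ := by rw [hκ]; positivity
  have hκ'0 : 0 < κ' := by rw [hκ']; positivity
  have hkk : κ' ≤ κ := by
    rw [hκ, hκ']
    apply one_div_le_one_div_of_le (by positivity)
    nlinarith
  have h8κ : 8 * κ ≤ μ := by
    rw [hκ, hμ, mul_one_div, div_le_div_iff₀ (by positivity) (by positivity)]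
    nlinarith
  have h16 : 16 * κ ≤ 3 / 4 * μs := by
    rw [hκ, mul_one_div, div_le_iff₀ (by positivity)]
    rw [div_le_iff₀ hμs] at hPμ
    nlinarith
  obtain ⟨ν, hν⟩ : ∃ κ : ℝ, κ = κ' / 2 * (1 - 1 / ‖β‖) / 4 / 2 := ⟨_, rfl⟩
  have h1b : 1 / ‖β‖ < 1 := by
    rw [div_lt_one (by linarith)]
    exact hb
  have h1b0 : 0 < 1 / ‖β‖ := by positivity
  have hν0 : 0 < ν := by
    rw [hν]
    have : 0 < 1 - 1 / ‖β‖ := by linarith
    positivity
  have hν4 : 4 * ν ≤ κ' := by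
    rw [hν]
    nlinarith
  obtain ⟨μF, R, blk, m, hμF, hm1, hm2, hLev⟩ := hJ (ν / 2) (by positivity)
  have hStg : ∀ c : ℝ, |1 / 2 - c| ≤ 2 * ν → Stg V l κ ν (3 / 4 * μF) c R := by
    intro c hc F X hX
    have hHt := hTRM β (κ' / 2) c (2 * s) hb (by positivity) (by omega) (by
      have e : ‖β‖ ^ (2 * s) = P * P := by rw [hP, ← pow_add, two_mul]
      rw [e, hκ']
      have e2 : 1 / (4 * P * q) / 2 * (P * P) = P / (8 * q) := by
        field_simp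
        norm_num
      rw [e2, le_div_iff₀ (by positivity)]
      nlinarith) (by
      have e : κ' / 2 * (1 - 1 / ‖β‖) / 4 = 2 * ν := by rw [hν]; ring
      rw [e]
      exact hc)
    have e : κ' / 2 * (1 - 1 / ‖β‖) / 4 = 2 * ν := by rw [hν]; ring
    rw [e] at hHt
    obtain ⟨K, hK⟩ : ∃ K : ℕ, ∀ n, n ≤ F → blk n < K := by
      refine ⟨(range (F + 1)).sup blk + 1, fun n hn => ?_⟩
      have := Finset.le_sup (f := blk) (mem_range.2 (show n < F + 1 by omega))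
      omega
    obtain ⟨J₀, hJ0⟩ := hHKX V β l M (2 * s) s κ κ' μ ν (ν / 2) c blk m hF hM hkk h8κ hν0 hν4
      (by positivity) le_rfl (fun n hn => hμF.le.trans (hm1 n hn)) hAv hHt hLev K
    obtain ⟨h, hh1, _, X', hX', hbk, hpast, hhit, hfut⟩ := hJ0 J₀ le_rfl X hX
    refine ⟨J₀ + h, by omega, X', hX', hbk, fun n hn => ?_, hhit, fun n hn1 hnF => ?_⟩
    · refine le_trans ?_ (hpast n hn)
      have : (0 : ℝ) < (1 / 2) ^ K := by positivity
      nlinarith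
    · have h1 := hfut n hn1 (hK n hnF)
      have h2 : (0 : ℝ) < 1 / 4 * (1 / 2) ^ (K - 1 - blk n) := by positivity
      have h3 := hm1 n hn1
      refine ⟨?_, fun hR => ?_⟩
      · refine le_trans ?_ h1
        nlinarith
      · have h4 := hm2 n hn1 hR
        refine h16.trans (le_trans ?_ h1)
        nlinarith
  obtain ⟨δ, hδ⟩ : ∃ δ : ℝ, δ = min (min (ν / 2) (3 / 8 * μF)) (min (12 * κ) (1 / 4)) := ⟨_, rfl⟩
  have hδ0 : 0 < δ := by
    rw [hδ]
    exact lt_min (lt_min (by positivity) (by positivity)) (lt_min (by positivity) (by norm_num))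
  have hδ1 : δ ≤ ν / 2 := by rw [hδ]; exact (min_le_left _ _).trans (min_le_left _ _)
  have hδ2 : δ ≤ 3 / 8 * μF := by rw [hδ]; exact (min_le_left _ _).trans (min_le_right _ _)
  have hδ3 : δ ≤ 12 * κ := by rw [hδ]; exact (min_le_right _ _).trans (min_le_left _ _)
  have hδ4 : δ ≤ 1 / 4 := by rw [hδ]; exact (min_le_right _ _).trans (min_le_right _ _)
  refine ⟨1 / 2 - δ, by linarith, by linarith, fun c hc => ?_⟩
  have hc1 := hc.1
  have hc2 := hc.2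
  refine hLMX V β l κ ν (3 / 4 * μF) c R hF hκ0 hν0 (by positivity) (by linarith) hc2
    (by linarith) (by linarith) (by linarith) (hStg c ?_)
  rw [abs_of_nonneg (by linarith)]
  linarith

end Pool.LSP
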