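import Pool.Agent.H85.LSP.Def2
import Pool.Agent.H21.LSP.PIG

/-!
# LSQ, modules CHX and AVX: choice of the parameter, avoidance for finitely many phases
-/

set_option autoImplicit false

namespace Pool.LSP

open Finset

theorem t_chx (hCON : CONStmt) : CHXStmt := by
  intro ρ K M hρ
  have h1 : 1 < Real.sqrt ρ := by
    rw [Real.lt_sqrt (by norm_num)]
    simpa using hρ
  obtain ⟨A, hA⟩ : ∃ A : ℝ, A = |K| * 1024 * ((M : ℝ) + 1) ^ 6 := ⟨_, rfl⟩
  have hA0 : 0 ≤ A := by rw [hA]; positivity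
  obtain ⟨s, _, hs1, hs⟩ := hCON (Real.sqrt ρ) h1 (A + 1) 0
  refine ⟨s, hs1, ?_⟩
  obtain ⟨x, hx⟩ : ∃ x : ℝ, x = 2 * s + 1 := ⟨_, rfl⟩
  have hs0 : (1 : ℝ) ≤ s := by exact_mod_cast hs1
  have hx1 : 1 ≤ x := by rw [hx]; linarith
  have e1 : ((2 * s + 0 + 1 : ℕ) : ℝ) = x := by
    rw [hx]
    push_cast
    ring
  rw [e1] at hs
  have h2 : ((A + 1) * x ^ 6) ^ 2 ≤ ρ ^ s := by
    have h3 := pow_le_pow_left₀ (by positivity) hs 2
    have e2 : (Real.sqrt ρ ^ s) ^ 2 = ρ ^ s := by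
      rw [← pow_mul, mul_comm, pow_mul, Real.sq_sqrt (by linarith)]
    rwa [e2] at h3
  refine le_trans ?_ h2
  have h4 : ((M * (2 * s + 1) * (s + 1) : ℕ) : ℝ) + 1 ≤ ((M : ℝ) + 1) * x ^ 2 := by
    rw [hx]
    push_cast
    have hM0 : (0 : ℝ) ≤ M := Nat.cast_nonneg M
    have h5 : (2 * (s : ℝ) + 1) * (s + 1) ≤ (2 * s + 1) ^ 2 := by nlinarith
    have h6 : (M : ℝ) * ((2 * (s : ℝ) + 1) * (s + 1)) ≤ M * (2 * s + 1) ^ 2 :=
      mul_le_mul_of_nonneg_left h5 hM0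
    nlinarith
  have h5 : qq (M * (2 * s + 1) * (s + 1)) ≤ 32 * (((M : ℝ) + 1) * x ^ 2) ^ 3 := by
    unfold qq
    have h6 := pow_le_pow_left₀ (by positivity) h4 3
    linarith
  have h6 : qq (M * (2 * s + 1) * (s + 1)) ^ 2 ≤ (32 * (((M : ℝ) + 1) * x ^ 2) ^ 3) ^ 2 :=
    pow_le_pow_left₀ (by have := qq_ge (M * (2 * s + 1) * (s + 1)); linarith) h5 2
  calc K * qq (M * (2 * s + 1) * (s + 1)) ^ 2 ≤ |K| * qq (M * (2 * s + 1) * (s + 1)) ^ 2 :=
        mul_le_mul_of_nonneg_right (le_abs_self K) (by positivity)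
    _ ≤ |K| * (32 * (((M : ℝ) + 1) * x ^ 2) ^ 3) ^ 2 :=
        mul_le_mul_of_nonneg_left h6 (abs_nonneg K)
    _ = A * x ^ 12 := by rw [hA]; ring
    _ ≤ (A + 1) ^ 2 * x ^ 12 := by
        refine mul_le_mul_of_nonneg_right ?_ (by positivity)
        nlinarith
    _ = ((A + 1) * x ^ 6) ^ 2 := by ring

theorem t_avx (hGEN : GENStmt) : AVXStmt := by
  classical
  intro β L s hb h8 T σ
  obtain ⟨m, hm⟩ : ∃ m : ℕ, m = L * (s + 1) := ⟨_, rfl⟩
  rw [← hm] at h8 ⊢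
  have hq := qq_ge m
  have hb0 : 0 < ‖β‖ := by linarith
  have hW : 0 < ‖β‖ ^ s := by positivity
  have hqW : qq m ≤ ‖β‖ ^ s := by nlinarith
  have hn : ∀ n : ℕ, ‖β ^ n‖ = ‖β‖ ^ n := fun n => norm_pow β n
  have h1n : ∀ n : ℕ, 1 ≤ ‖β‖ ^ n := fun n => one_le_pow₀ hb.le
  obtain ⟨z, hz, h0, h1⟩ := hGEN m (ℕ × ℕ) (range (min s T + 1) ×ˢ range L)
    (Finset.Ioc s T ×ˢ range L) (fun i => σ i.1 i.2) (fun i => β ^ i.1) (‖β‖ ^ s) hW
    (by
      rw [card_product, card_range, card_range, hm, mul_comm]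
      exact Nat.mul_le_mul_left L (by omega))
    (fun i hi => by
      rw [mem_product, mem_range, mem_range] at hi
      refine ⟨pow_ne_zero _ (norm_pos_iff.1 hb0), ?_⟩
      rw [hn]
      exact pow_le_pow_right₀ hb.le (by omega))
    (fun i hi => by
      rw [mem_product, mem_Ioc] at hi
      rw [hn]
      exact pow_lt_pow_right₀ hb hi.1.1)
    (fun X hX => by
      have hX0 : 0 < X := lt_of_lt_of_le hW hX
      by_cases hne : ∃ i, i ∈ (Finset.Ioc s T ×ˢ range L).filter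
          (fun i : ℕ × ℕ => X < ‖β ^ i.1‖ ∧ ‖β ^ i.1‖ ≤ qq m * X)
      swap
      · have : (Finset.Ioc s T ×ˢ range L).filter
          (fun i : ℕ × ℕ => X < ‖β ^ i.1‖ ∧ ‖β ^ i.1‖ ≤ qq m * X) = ∅ :=
          Finset.eq_empty_of_forall_notMem (fun i hi => hne ⟨i, hi⟩)
        rw [this, card_empty]
        omega
      · obtain ⟨n₀, ⟨j₀, hj₀⟩, hmin⟩ : ∃ n₀ : ℕ, (∃ j₀, (n₀, j₀) ∈ (Finset.Ioc s T ×ˢ range L).filter
            (fun i : ℕ × ℕ => X < ‖β ^ i.1‖ ∧ ‖β ^ i.1‖ ≤ qq m * X)) ∧ ∀ n < n₀,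
            ¬ ∃ j₀, (n, j₀) ∈ (Finset.Ioc s T ×ˢ range L).filter
            (fun i : ℕ × ℕ => X < ‖β ^ i.1‖ ∧ ‖β ^ i.1‖ ≤ qq m * X) := by
          have hex : ∃ n₀ : ℕ, ∃ j₀, (n₀, j₀) ∈ (Finset.Ioc s T ×ˢ range L).filter
            (fun i : ℕ × ℕ => X < ‖β ^ i.1‖ ∧ ‖β ^ i.1‖ ≤ qq m * X) := by
            obtain ⟨i, hi⟩ := hne
            exact ⟨i.1, i.2, hi⟩
          exact ⟨Nat.find hex, Nat.find_spec hex, fun n hn' => Nat.find_min hex hn'⟩
        have hsub : (Finset.Ioc s T ×ˢ range L).filter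
            (fun i : ℕ × ℕ => X < ‖β ^ i.1‖ ∧ ‖β ^ i.1‖ ≤ qq m * X) ⊆
            Finset.Ico n₀ (n₀ + s) ×ˢ range L := by
          intro i hi
          have hge : n₀ ≤ i.1 := by
            by_contra hc
            exact hmin i.1 (by omega) ⟨i.2, hi⟩
          rw [mem_filter, mem_product] at hi hj₀
          rw [mem_product, mem_Ico]
          refine ⟨⟨hge, ?_⟩, hi.1.2⟩
          by_contra hc
          have h3 : ‖β‖ ^ (n₀ + s) ≤ ‖β‖ ^ i.1 := pow_le_pow_right₀ hb.le (by omega)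
          have h4 := hj₀.2.1
          have h5 := hi.2.2
          simp only [] at h4 h5
          rw [hn] at h4 h5
          rw [pow_add] at h3
          have h6 : X * ‖β‖ ^ s < ‖β‖ ^ n₀ * ‖β‖ ^ s := mul_lt_mul_of_pos_right h4 hW
          have h7 : qq m * X ≤ ‖β‖ ^ s * X := mul_le_mul_of_nonneg_right hqW hX0.le
          linarith
        refine (card_le_card hsub).trans ?_
        rw [card_product, Nat.card_Ico, card_range, hm, mul_comm]
        exact Nat.mul_le_mul_left L (by omega))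
  refine ⟨z, hz, fun n i hnT hiL => ?_⟩
  have hle : 1 / (4 * ‖β‖ ^ s * qq m) ≤ 1 / (4 * qq m ^ 2) := by
    apply one_div_le_one_div_of_le (by positivity)
    nlinarith
  rcases Nat.lt_or_ge s n with hsn | hsn
  · have h2 := h1 (n, i) (by
      rw [mem_product, mem_Ioc, mem_range]
      exact ⟨⟨hsn, hnT⟩, hiL⟩)
    exact ⟨hle.trans h2, fun _ => h2⟩
  · have h2 := h0 (n, i) (by
      rw [mem_product, mem_range, mem_range]
      exact ⟨by omega, hiL⟩)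
    simp only [] at h2
    rw [hn] at h2
    refine ⟨le_trans ?_ h2, fun h => absurd h (by omega)⟩
    have e : 4 * ‖β‖ ^ s * qq m = 4 * qq m * ‖β‖ ^ s := by ring
    rw [e]
    apply div_le_div_of_nonneg_right (h1n n) (by positivity)

end Pool.LSP
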