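import Pool.Agent.H17.LSP.ASM
import Pool.Agent.H17.LSP.WIN
import Pool.Agent.H17.LSP.RTS
import Pool.Agent.H17.LSP.CVB
import Pool.Agent.H17.LSP.MEM
import Pool.Agent.H2.LSP.JUN
import Pool.Agent.H21.LSP.PIG
import Pool.Agent.H34.LSP.AVO
import Pool.Agent.H34.LSP.AVT
import Pool.Agent.H34.LSP.EUL
import Pool.Agent.H79.LSP.KAP
import Pool.Agent.H96.LSP.CNT
import Pool.Agent.H96.LSP.FAB
import Pool.Agent.H96.LSP.NOI
import Pool.Agent.H85.LSP.SEQ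

/-!
# LSP: the main theorem
-/

set_option autoImplicit false

namespace Pool.LSP

theorem main : MainStmt := by
  have hGEN : GENStmt := t_gen t_pig (t_nst t_pig)
  have hCON : CONStmt := t_con
  have hAVO : AVOStmt := t_avo hGEN hCON
  have hAVT : AVTStmt := t_avt hGEN hCON
  have hSEQ : SEQStmt := t_seq hAVO t_lsm
  have hJUN : JUNStmt := t_jun t_cnt t_cn1 hCON
  have hASM : ASMStmt := t_asm t_cvb hJUN t_lsm
  have hOUT : OUTStmt := t_out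
  have hTH1 : TH1Stmt := t_th1 (t_faa hSEQ) (t_fab hSEQ)
  have hTH3 : TH3Stmt := by
    apply t_th3 (t_kap t_eul) (t_win hAVT) t_dig hASM <;> first | exact t_cnv | exact t_cvb | exact t_lsm
  intro P hP
  refine ⟨(hTH1 P hP).1, (hTH1 P hP).2, ?_, ?_⟩
  · rintro ⟨Q, hQP, hQm, hQh, γ, hγ, hγ1⟩ k
    obtain ⟨h1, h2, h3⟩ := hOUT.2.1 P Q hP hQP ⟨γ, hγ⟩
    obtain ⟨v, hv0, hv1, hv⟩ := hTH3 Q hQm h1 hQh h2 h3 ⟨γ, hγ, hγ1⟩ k
    have hP0 : P ≠ 0 := by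
      rintro rfl
      have := hP.deg
      simp at this
    exact ⟨v, hv0, hv1, hv.trans (hOUT.2.2 P Q hP0 hQP k)⟩
  · intro h
    exact t_noi P (hOUT.1 P hP) h

end Pool.LSP
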