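import Pool.Agent.H85.LSP.Def2
import Pool.Agent.H17.LSP.MEM

/-!
# LSQ, module FIN: the classification
-/

set_option autoImplicit false

namespace Pool.LSP

open Polynomial Filter Topology Finset
open Rts Mem

theorem fin_ne_root {Q : ℤ[X]} {α : ℂ} (h : α ∈ Rt Q) : 1 ≤ Q.natDegree := by
  rw [rt_eq] at h
  have h1 : 0 < Multiset.card (PC Q).roots := Multiset.card_pos_iff_exists_mem.2 ⟨α, h⟩
  have h2 := Polynomial.card_roots' (PC Q)
  have h3 : (PC Q).natDegree ≤ Q.natDegree := natDegree_map_le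
  omega

theorem fin_mul_root {A B : ℤ[X]} {α : ℂ} (hA : A ≠ 0) (hB : B ≠ 0) (h : α ∈ Rt (A * B)) :
    α ∈ Rt A ∨ α ∈ Rt B := by
  rw [rt_eq] at h ⊢
  rw [rt_eq]
  have e : PC (A * B) = PC A * PC B := by
    unfold PC
    exact Polynomial.map_mul _
  rw [e, Polynomial.roots_mul (mul_ne_zero (pc_ne hA) (pc_ne hB)), Multiset.mem_add] at h
  exact h

theorem fin_factor {P : ℤ[X]} (hP : P ≠ 0) {γ : ℂ} (hγ : γ ∈ Rt P) :
    ∃ Q : ℤ[X], Irreducible Q ∧ Q ∣ P ∧ γ ∈ Rt Q := by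
  have key : ∀ A : ℤ[X], A ≠ 0 → γ ∈ Rt A → ∃ Q : ℤ[X], Irreducible Q ∧ Q ∣ A ∧ γ ∈ Rt Q := by
    intro A
    refine WfDvdMonoid.induction_on_irreducible
      (motive := fun A : ℤ[X] => A ≠ 0 → γ ∈ Rt A → ∃ Q : ℤ[X], Irreducible Q ∧ Q ∣ A ∧ γ ∈ Rt Q)
      A ?_ ?_ ?_
    · intro h
      exact absurd rfl h
    · intro u hu _ h
      have h1 := fin_ne_root h
      have h2 := Polynomial.natDegree_eq_zero_of_isUnit hu
      omega
    · intro a i ha hi ih _ h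
      rcases fin_mul_root hi.ne_zero ha h with h1 | h1
      · exact ⟨i, hi, dvd_mul_right i a, h1⟩
      · obtain ⟨Q, h2, h3, h4⟩ := ih ha h1
        exact ⟨Q, h2, h3.mul_left i, h4⟩
  exact key P hP hγ

theorem fin_lead {P : ℤ[X]} (hP : P ≠ 0) (hl : ¬ IsUnit P.leadingCoeff) :
    ∃ Q : ℤ[X], Irreducible Q ∧ Q ∣ P ∧ ¬ IsUnit Q.leadingCoeff := by
  have key : ∀ A : ℤ[X], A ≠ 0 → ¬ IsUnit A.leadingCoeff →
      ∃ Q : ℤ[X], Irreducible Q ∧ Q ∣ A ∧ ¬ IsUnit Q.leadingCoeff := by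
    intro A
    refine WfDvdMonoid.induction_on_irreducible
      (motive := fun A : ℤ[X] => A ≠ 0 → ¬ IsUnit A.leadingCoeff →
        ∃ Q : ℤ[X], Irreducible Q ∧ Q ∣ A ∧ ¬ IsUnit Q.leadingCoeff) A ?_ ?_ ?_
    · intro h
      exact absurd rfl h
    · intro u hu _ h
      obtain ⟨r, hr, rfl⟩ := Polynomial.isUnit_iff.1 hu
      rw [leadingCoeff_C] at h
      exact absurd hr h
    · intro a i ha hi ih _ h
      by_cases h1 : IsUnit i.leadingCoeff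
      · by_cases h2 : IsUnit a.leadingCoeff
        · rw [leadingCoeff_mul] at h
          exact absurd (h1.mul h2) h
        · obtain ⟨Q, h3, h4, h5⟩ := ih ha h2
          exact ⟨Q, h3, h4.mul_left i, h5⟩
      · exact ⟨i, hi, dvd_mul_right i a, h1⟩
  exact key P hP hl

theorem fin_monic {P : ℤ[X]} (hP : P.Monic) {γ : ℂ} (hγ : γ ∈ Rt P) :
    ∃ Q : ℤ[X], Irreducible Q ∧ Q ∣ P ∧ γ ∈ Rt Q ∧ Q.Monic := by
  obtain ⟨Q, h1, h2, h3⟩ := fin_factor hP.ne_zero hγ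
  have h4 : IsUnit Q.leadingCoeff := by
    obtain ⟨R, rfl⟩ := h2
    have h5 : Q.leadingCoeff * R.leadingCoeff = 1 := by
      rw [← leadingCoeff_mul]
      exact hP
    exact IsUnit.of_mul_eq_one _ h5
  rcases Int.isUnit_iff.1 h4 with h5 | h5
  · exact ⟨Q, h1, h2, h3, h5⟩
  · refine ⟨-Q, ((Associated.refl Q).neg_right).irreducible h1, (neg_dvd).2 h2, ?_, ?_⟩
    · rw [rt_eq] at h3 ⊢
      have e : PC (-Q) = -PC Q := by
        unfold PC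
        exact Polynomial.map_neg _
      rw [e, Polynomial.roots_neg]
      exact h3
    · rw [Polynomial.Monic, leadingCoeff_neg, h5]
      norm_num

theorem t_fin (hABS : ABSStmt) (hFRM : FRMStmt) (hMVO : MVOStmt) (hSUA : SUAStmt)
    (hSUB : SUBStmt) (hJMA : JMAStmt) (hJMB : JMBStmt) (hmain : MainStmt) : Main2Stmt := by
  intro P hP
  obtain ⟨m1, m2, m3, m4⟩ := hmain P hP
  have hP0 := adm_ne hP
  have key : ∀ Q : ℤ[X], Q ∣ P → ∀ β ∈ Out Q, Jmp (Vo Q) → Ter P 0 := by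
    intro Q hQ β hβ hJ
    obtain ⟨l, hF⟩ := hFRM Q β hβ
    obtain ⟨v, hv0, hv1, hv⟩ := hABS _ β l hF hJ
    refine ⟨v, hv0, hv1, fun c hc => ?_⟩
    obtain ⟨ξ, hξ, hlim⟩ := hv c hc
    obtain ⟨g, hg, hgx⟩ := hMVO P Q 0 hP0 hQ ξ hξ
    refine ⟨g, hg, ?_⟩
    rw [← hlim]
    congr 1
    funext n
    rw [hgx]
  have hnd : ∀ Q : ℤ[X], Q ∣ P → (Rt Q).Nodup := fun Q hQ =>
    Multiset.nodup_of_le (rt_le hP0 hQ) hP.nodup
  refine ⟨fun k hk => ?_, fun ⟨m, a, hm, h⟩ =>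
    m4 ⟨m, a, hm, fun α hα => h α (mem_out.1 hα).1⟩⟩
  rcases Nat.eq_zero_or_pos k with rfl | hk1
  swap
  · exact m1 k hk1
  have hE := hk rfl
  by_cases hmon : P.Monic
  · by_cases hin : ∃ γ ∈ Rt P, ‖γ‖ ≤ 1
    · obtain ⟨γ, hγ, hγ1⟩ := hin
      obtain ⟨Q, hQi, hQP, hγQ, hQm⟩ := fin_monic hmon hγ
      by_cases hu : ∃ γ' ∈ Rt Q, ‖γ'‖ = 1
      · obtain ⟨β, hβ⟩ := hP.out Q hQi hQP
        obtain ⟨l, hF⟩ := hFRM Q β hβ
        have hb : 1 < ‖β‖ := (mem_out.1 hβ).2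
        exact key Q hQP β hβ (hJMB _ β l ((1 + ‖β‖) / 2) hF (by linarith) (by linarith)
          (hSUB Q hQi hQm (hnd Q hQP) ⟨β, hβ⟩ hu _ (by linarith)))
      · push Not at hu
        exact m3 ⟨Q, hQP, hQm, hu, γ, hγQ, lt_of_le_of_ne hγ1 (hu γ hγQ)⟩ 0
    · push Not at hin
      refine m2 ?_ 0
      by_contra hc
      push Not at hc
      obtain ⟨β, hβ⟩ : (Out P).Nonempty := t_out.1 P hP
      exact hE ⟨hmon, ‖β‖, fun α hα => hc α (mem_out.2 ⟨hα, hin α hα⟩) β hβ⟩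
  · have hl : ¬ IsUnit P.leadingCoeff := by
      intro h
      rcases Int.isUnit_iff.1 h with h | h
      · exact hmon h
      · have := hP.lead
        omega
    obtain ⟨Q, hQi, hQP, hQl⟩ := fin_lead hP0 hl
    obtain ⟨β, hβ⟩ := hP.out Q hQi hQP
    obtain ⟨l, hF⟩ := hFRM Q β hβ
    obtain ⟨s₀, hs0, hs⟩ := hSUA Q hQi (fin_ne_root (mem_out.1 hβ).1) (hnd Q hQP) ⟨β, hβ⟩ hQl
    exact key Q hQP β hβ (hJMA _ β l s₀ hF hs0 hs)

end Pool.LSP
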