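import Pool.Agent.H85.LSP.Def2

/-!
# LSQ, module HKX: induction on the number of levels
-/

set_option autoImplicit false

namespace Pool.LSP

open Finset

theorem hd_add_ge (x y : ℝ) : hd x - nr y ≤ hd (x + y) := by
  have e : x + y = (x + (y - round y)) + ((round y : ℤ) : ℝ) := by ring
  rw [e, hd_add_int]
  have h := hd_ge_sub (x + (y - round y)) x
  have e2 : x + (y - round y) - x = y - round y := by ring
  rw [e2] at h
  unfold nr
  exact h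

theorem hd_add_abs (x y : ℝ) : hd x - |y| ≤ hd (x + y) := by
  have h := hd_ge_sub (x + y) x
  have e2 : x + y - x = y := by ring
  rwa [e2] at h

theorem re_zpow_le (z β : ℂ) (n : ℤ) : |(z * β ^ n).re| ≤ ‖z‖ * ‖β‖ ^ n := by
  refine (Complex.abs_re_le_norm _).trans ?_
  rw [norm_mul, norm_zpow]

theorem zpow_neg_le {x y : ℝ} (hx : 1 < x) (hxy : x ≤ y) (m : ℕ) :
    y ^ (-(m : ℤ)) ≤ x ^ (-(m : ℤ)) := by
  have h0 : 0 < x := by linarith
  rw [zpow_neg, zpow_neg, zpow_natCast, zpow_natCast]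
  have : x ^ m ≤ y ^ m := pow_le_pow_left₀ h0.le hxy m
  have h1 : 0 < x ^ m := by positivity
  gcongr

theorem zpow_le_one' {x : ℝ} (hx : 1 < x) {n : ℤ} (hn : n ≤ 0) : x ^ n ≤ 1 := by
  have := zpow_le_zpow_right₀ hx.le hn
  simpa using this

/-- the conclusion for `K` levels -/
def HK (V : Submodule ℝ (ℤ → ℝ)) (l : ℝ) (H : ℕ) (κ ν c : ℝ) (blk : ℕ → ℕ) (m : ℕ → ℝ)
    (K : ℕ) : Prop :=
  ∃ J₀ : ℕ, ∀ J : ℕ, J₀ ≤ J → ∀ X ∈ V, ∃ h : ℕ, 1 ≤ h ∧ h ≤ H ∧ ∃ X' ∈ V,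
    Bk l (2 * κ) (fun n => X' n - X n) ∧
    (∀ n : ℕ, n < J + h → ν * (1 + (1 / 2) ^ K) ≤ hd (X' n)) ∧
    (∃ p : ℤ, X' ((J + h : ℕ) : ℤ) = c + p) ∧
    ∀ n : ℕ, 1 ≤ n → blk n < K →
      m n * (3 / 4 + 1 / 4 * (1 / 2) ^ (K - 1 - blk n)) ≤ hd (X' ((J + h + n : ℕ) : ℤ))

variable {V : Submodule ℝ (ℤ → ℝ)} {β : ℂ} {l : ℝ} {M H R : ℕ} {κ κ' μ ν ε c : ℝ} {blk : ℕ → ℕ}
  {m : ℕ → ℝ}

theorem hk_base (hF : Fr V β l) (hM : 1 ≤ M) (hk : κ' ≤ κ) (hν : 0 < ν) (h4 : 4 * ν ≤ κ')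
    (hAv : Av β (M * (H + 1)) R κ κ' μ) (hHt : Ht β (κ' / 2) c (2 * ν) H) :
    HK V l H κ ν c blk m 0 := by
  have hl := hF.hl
  have hlb := hF.hlb
  have hb : 1 < ‖β‖ := lt_of_lt_of_le hl hlb
  refine ⟨0, fun J _ X hX => ?_⟩
  obtain ⟨z1, hz1, h1⟩ := hAv J (fun n _ => X n)
  have hL : 0 < M * (H + 1) := by positivity
  obtain ⟨h, hh1, hhH, z2, hz2, ⟨p, hp⟩, h2⟩ :=
    hHt (fun j => X ((J + j : ℕ) : ℤ) + (z1 * β ^ (J + j)).re)
  have hz2' : ∀ n : ℤ, n ≤ 0 → |(z2 * β ^ n).re| ≤ κ' / 2 := fun n hn => by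
    refine (re_zpow_le z2 β n).trans ?_
    have h3 := zpow_le_one' hb hn
    have h4 : 0 ≤ ‖z2‖ := norm_nonneg _
    nlinarith
  refine ⟨h, hh1, hhH, fun n => X n + (z1 * β ^ n).re + (z2 * β ^ (n - J)).re, ?_, ?_, ?_, ?_, ?_⟩
  · exact V.add_mem (V.add_mem hX (hF.dir z1)) (hF.sh _ (hF.dir z2) (-(J : ℤ)))
  · intro i
    have e : X (-(i : ℤ)) + (z1 * β ^ (-(i : ℤ))).re + (z2 * β ^ (-(i : ℤ) - J)).re -
        X (-(i : ℤ)) = (z1 * β ^ (-(i : ℤ))).re + (z2 * β ^ (-((i + J : ℕ) : ℤ))).re := by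
      have : (-(i : ℤ) - J) = -((i + J : ℕ) : ℤ) := by push_cast; ring
      rw [this]
      ring
    show |_| ≤ _
    simp only []
    rw [e]
    refine (abs_add_le _ _).trans ?_
    have a1 := re_zpow_le z1 β (-(i : ℤ))
    have a2 := re_zpow_le z2 β (-((i + J : ℕ) : ℤ))
    have b1 := zpow_neg_le hl hlb i
    have b2 : ‖β‖ ^ (-((i + J : ℕ) : ℤ)) ≤ l ^ (-(i : ℤ)) :=
      (zpow_neg_le hl hlb (i + J)).trans (zpow_le_zpow_right₀ hl.le (by push_cast; omega))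
    have c1 : 0 < ‖β‖ ^ (-(i : ℤ)) := zpow_pos (by linarith) _
    have c2 : 0 < ‖β‖ ^ (-((i + J : ℕ) : ℤ)) := zpow_pos (by linarith) _
    have c3 : 0 < l ^ (-(i : ℤ)) := zpow_pos (by linarith) _
    have d1 : ‖z1‖ * ‖β‖ ^ (-(i : ℤ)) ≤ κ * l ^ (-(i : ℤ)) :=
      mul_le_mul hz1 b1 c1.le (by linarith)
    have d2 : ‖z2‖ * ‖β‖ ^ (-((i + J : ℕ) : ℤ)) ≤ κ' / 2 * l ^ (-(i : ℤ)) :=
      mul_le_mul hz2 b2 c2.le (by linarith)
    have d3 : κ' / 2 * l ^ (-(i : ℤ)) ≤ κ * l ^ (-(i : ℤ)) := by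
      refine mul_le_mul_of_nonneg_right ?_ c3.le
      linarith
    linarith
  · intro n hn
    simp only []
    rcases Nat.lt_or_ge J n with hJ | hJ
    · obtain ⟨j, rfl⟩ := Nat.exists_eq_add_of_le hJ.le
      have h3 := h2 j (by omega) (by omega)
      have e1 : ((J + j : ℕ) : ℤ) - J = (j : ℤ) := by push_cast; ring
      rw [e1, zpow_natCast, zpow_natCast, pow_zero]
      linarith
    · have h3 := (h1 n 0 hJ hL).1
      have h5 := hd_add_abs (X n + (z1 * β ^ (n : ℤ)).re) ((z2 * β ^ ((n : ℤ) - J)).re)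
      have h6 := hz2' ((n : ℤ) - J) (by omega)
      rw [pow_zero]
      rw [zpow_natCast] at h5 ⊢
      linarith
  · refine ⟨p, ?_⟩
    have e1 : ((J + h : ℕ) : ℤ) - J = (h : ℤ) := by push_cast; ring
    simp only []
    rw [e1, zpow_natCast, zpow_natCast]
    exact hp
  · intro n _ hn
    omega

theorem bk_all {g : ℕ → ℤ → ℝ} (hF : Fr V β l) (hg : ∀ k, k < M → g k ∈ V) :
    ∃ C : ℝ, 0 ≤ C ∧ ∀ k, k < M → Bk l C (g k) := by
  have hl := hF.hl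
  induction M with
  | zero => exact ⟨0, le_rfl, fun k hk => absurd hk (by omega)⟩
  | succ M ih =>
    obtain ⟨C, h0, h1⟩ := ih (fun k hk => hg k (by omega))
    obtain ⟨D, h2, h3⟩ := hF.bk (g M) (hg M (by omega))
    refine ⟨C + D, by linarith, fun k hk i => ?_⟩
    have hp : 0 < l ^ (-(i : ℤ)) := zpow_pos (by linarith) _
    rcases Nat.lt_or_ge k M with h | h
    · refine (h1 k h i).trans ?_
      nlinarith
    · obtain rfl : k = M := by omega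
      refine (h3 i).trans ?_
      nlinarith

theorem zpow_tend {l : ℝ} (hl : 1 < l) {a : ℝ} (ha : 0 < a) :
    ∃ T : ℕ, ∀ t : ℕ, T ≤ t → l ^ (-(t : ℤ)) ≤ a := by
  obtain ⟨T, hT⟩ := pow_unbounded_of_one_lt (1 / a) hl
  refine ⟨T, fun t ht => ?_⟩
  have h0 : 0 < l := by linarith
  have h1 : l ^ T ≤ l ^ t := pow_le_pow_right₀ hl.le ht
  rw [zpow_neg, zpow_natCast]
  have h2 : 1 / a ≤ l ^ t := hT.le.trans h1
  rw [div_le_iff₀ ha] at h2
  rw [inv_le_comm₀ (by positivity) ha, ← one_div, div_le_iff₀ ha]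
  exact h2

theorem hk_const (hF : Fr V β l) (hκ : 0 < κ) (hκ' : 0 < κ') {C : ℝ} (hC : 0 ≤ C) :
    ∃ t₀ : ℕ, R < t₀ ∧ ∀ t : ℕ, t₀ ≤ t → l ^ (-(t : ℤ)) ≤ 1 / 4 ∧ C * l ^ (-(t : ℤ)) ≤ κ / 2 ∧
      2 * κ * l ^ ((R : ℤ) - t) ≤ κ' / 2 := by
  have hl := hF.hl
  have hl0 : 0 < l := by linarith
  obtain ⟨T1, h1⟩ := zpow_tend hl (show (0 : ℝ) < 1 / 4 by norm_num)
  obtain ⟨T2, h2⟩ := zpow_tend hl (show (0 : ℝ) < κ / (2 * (C + 1)) by positivity)
  obtain ⟨T3, h3⟩ := zpow_tend hl (show (0 : ℝ) < κ' / (4 * κ) / l ^ R by positivity)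
  refine ⟨T1 + T2 + T3 + R + 1, by omega, fun t ht => ⟨h1 t (by omega), ?_, ?_⟩⟩
  · have h4 := h2 t (by omega)
    calc C * l ^ (-(t : ℤ)) ≤ C * (κ / (2 * (C + 1))) := by gcongr
      _ ≤ (C + 1) * (κ / (2 * (C + 1))) := by
        refine mul_le_mul_of_nonneg_right (by linarith) (by positivity)
      _ = κ / 2 := by field_simp
  · have h4 := h3 t (by omega)
    have e : l ^ ((R : ℤ) - t) = l ^ R * l ^ (-(t : ℤ)) := by
      rw [sub_eq_add_neg, zpow_add₀ hl0.ne', zpow_natCast]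
    rw [e]
    calc 2 * κ * (l ^ R * l ^ (-(t : ℤ))) ≤ 2 * κ * (l ^ R * (κ' / (4 * κ) / l ^ R)) := by gcongr
      _ = κ' / 2 := by field_simp; norm_num

theorem hk_step (hF : Fr V β l) (hM : 1 ≤ M) (hk : κ' ≤ κ) (h8 : 8 * κ ≤ μ) (hν : 0 < ν)
    (h4 : 4 * ν ≤ κ') (hεν : ε ≤ ν / 2) (hAv : Av β (M * (H + 1)) R κ κ' μ)
    (hLev : Lev V M ε blk m) {K : ℕ} (ih : HK V l H κ ν c blk m K) :
    HK V l H κ ν c blk m (K + 1) := by
  have hl := hF.hl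
  have hlb := hF.hlb
  have hb : 1 < ‖β‖ := lt_of_lt_of_le hl hlb
  have hl0 : 0 < l := by linarith
  have hκ0 : 0 < κ := by linarith
  obtain ⟨J', hJ'⟩ := ih
  obtain ⟨g, hg, hφ⟩ := hLev K (J' + H)
  obtain ⟨C, hC0, hC⟩ := bk_all hF (fun k hk => (hg k hk).1)
  obtain ⟨t₀, ht0, ht⟩ := hk_const (R := R) (κ := κ) (κ' := κ') hF hκ0 (by linarith) hC0
  refine ⟨J' + t₀, fun J hJ X hX => ?_⟩
  obtain ⟨t, rfl⟩ : ∃ t, J = J' + t := ⟨J - J', by omega⟩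
  obtain ⟨ht1, ht2, ht3⟩ := ht t (by omega)
  obtain ⟨z1, hz1, h1⟩ :=
    hAv t (fun n i => X n + g (i % M) ((n : ℤ) - ((J' + t + i / M : ℕ) : ℤ)))
  have hZ : (fun n : ℤ => X (n + t) + (z1 * β ^ (n + t)).re) ∈ V :=
    V.add_mem (hF.sh X hX t) (hF.sh _ (hF.dir z1) t)
  obtain ⟨h, hh1, hhH, Z', hZ', hbk, hpast, ⟨p, hp⟩, hfut⟩ := hJ' J' le_rfl _ hZ
  obtain ⟨k, hkM, hk2⟩ := hφ (fun n => Z' ((J' + h + n : ℕ) : ℤ))
  obtain ⟨hgV, ⟨p2, hp2⟩, hgpast, hgfut⟩ := hg k hkM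
  have h2K : (0 : ℝ) < (1 / 2) ^ K := by positivity
  have h2K1 : (1 / 2 : ℝ) ^ K ≤ 1 := pow_le_one₀ (by norm_num) (by norm_num)
  refine ⟨h, hh1, hhH, fun n => Z' (n - t) + g k (n - ((J' + t + h : ℕ) : ℤ)), ?_, ?_, ?_, ?_, ?_⟩
  · exact V.add_mem (hF.sh Z' hZ' (-(t : ℤ))) (hF.sh (g k) hgV (-((J' + t + h : ℕ) : ℤ)))
  · intro i
    show |_| ≤ _
    simp only []
    have b1 := hbk (i + t)
    simp only [] at b1
    have e0 : (-((i + t : ℕ) : ℤ) + t) = -(i : ℤ) := by push_cast; ring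
    rw [e0] at b1
    have e1 : (-(i : ℤ) - t) = -((i + t : ℕ) : ℤ) := by push_cast; ring
    have e2 : (-(i : ℤ) - ((J' + t + h : ℕ) : ℤ)) = -((i + (J' + t + h) : ℕ) : ℤ) := by
      push_cast; ring
    rw [e1, e2]
    have b2 := hC k hkM (i + (J' + t + h))
    have b3 := re_zpow_le z1 β (-(i : ℤ))
    have c1 := zpow_neg_le hl hlb i
    have c2 : 0 < ‖β‖ ^ (-(i : ℤ)) := zpow_pos (by linarith) _
    have c3 : 0 < l ^ (-(i : ℤ)) := zpow_pos hl0 _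
    have c4 : l ^ (-((i + t : ℕ) : ℤ)) = l ^ (-(t : ℤ)) * l ^ (-(i : ℤ)) := by
      rw [← zpow_add₀ hl0.ne']
      congr 1
      push_cast
      ring
    have c5 : l ^ (-((i + (J' + t + h) : ℕ) : ℤ)) ≤ l ^ (-(t : ℤ)) * l ^ (-(i : ℤ)) := by
      rw [← c4]
      exact zpow_le_zpow_right₀ hl.le (by push_cast; omega)
    have d1 : ‖z1‖ * ‖β‖ ^ (-(i : ℤ)) ≤ κ * l ^ (-(i : ℤ)) := mul_le_mul hz1 c1 c2.le hκ0.le
    have d2 : C * l ^ (-((i + (J' + t + h) : ℕ) : ℤ)) ≤ κ / 2 * l ^ (-(i : ℤ)) := by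
      calc C * l ^ (-((i + (J' + t + h) : ℕ) : ℤ)) ≤ C * (l ^ (-(t : ℤ)) * l ^ (-(i : ℤ))) :=
            mul_le_mul_of_nonneg_left c5 hC0
        _ = C * l ^ (-(t : ℤ)) * l ^ (-(i : ℤ)) := by ring
        _ ≤ κ / 2 * l ^ (-(i : ℤ)) := mul_le_mul_of_nonneg_right ht2 c3.le
    have d3 : 2 * κ * l ^ (-((i + t : ℕ) : ℤ)) ≤ κ / 2 * l ^ (-(i : ℤ)) := by
      rw [c4]
      calc 2 * κ * (l ^ (-(t : ℤ)) * l ^ (-(i : ℤ))) = 2 * κ * l ^ (-(t : ℤ)) * l ^ (-(i : ℤ)) := by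
            ring
        _ ≤ κ / 2 * l ^ (-(i : ℤ)) := by
            refine mul_le_mul_of_nonneg_right ?_ c3.le
            nlinarith
    rw [abs_le] at b1 b2 b3 ⊢
    constructor <;> linarith [b1.1, b1.2, b2.1, b2.2, b3.1, b3.2]
  · intro n hn
    simp only []
    have hνK : ν * (1 + (1 / 2) ^ (K + 1)) ≤ 2 * ν := by
      have : (1 / 2 : ℝ) ^ (K + 1) ≤ 1 := pow_le_one₀ (by norm_num) (by norm_num)
      nlinarith
    rcases Nat.lt_or_ge n t with hnt | hnt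
    · have hi : k + M * h < M * (H + 1) := by
        calc k + M * h < M + M * h := by omega
          _ = M * (h + 1) := by ring
          _ ≤ M * (H + 1) := Nat.mul_le_mul_left M (by omega)
      obtain ⟨a1, a2⟩ := h1 n (k + M * h) hnt.le hi
      have e1 : (k + M * h) % M = k := by
        rw [Nat.add_mul_mod_self_left, Nat.mod_eq_of_lt hkM]
      have e2 : (k + M * h) / M = h := by
        rw [Nat.add_mul_div_left _ _ (by omega), Nat.div_eq_of_lt hkM, zero_add]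
      rw [e1, e2] at a1 a2
      obtain ⟨j, hj⟩ : ∃ j, t = n + j := ⟨t - n, by omega⟩
      have b1 := hbk j
      simp only [] at b1
      have e3 : (-(j : ℤ) + t) = (n : ℤ) := by rw [hj]; push_cast; ring
      have e4 : ((n : ℤ) - t) = -(j : ℤ) := by rw [hj]; push_cast; ring
      rw [e3, zpow_natCast] at b1
      rw [e4]
      obtain ⟨D, hD⟩ : ∃ D : ℝ, D = Z' (-(j : ℤ)) - (X n + (z1 * β ^ n).re) := ⟨_, rfl⟩
      rw [← hD] at b1
      have e5 : Z' (-(j : ℤ)) + g k ((n : ℤ) - ((J' + t + h : ℕ) : ℤ)) =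
          (X n + g k ((n : ℤ) - ((J' + t + h : ℕ) : ℤ)) + (z1 * β ^ n).re) + D := by
        rw [hD]
        ring
      rw [e5]
      have b2 := hd_add_abs (X n + g k ((n : ℤ) - ((J' + t + h : ℕ) : ℤ)) + (z1 * β ^ n).re) D
      rcases Nat.lt_or_ge R n with hR | hR
      · have a3 := a2 hR
        have b3 : 2 * κ * l ^ (-(j : ℤ)) ≤ 2 * κ := by
          have := zpow_le_one' hl (show -(j : ℤ) ≤ 0 by omega)
          nlinarith
        linarith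
      · have b3 : 2 * κ * l ^ (-(j : ℤ)) ≤ κ' / 2 := by
          refine le_trans ?_ ht3
          refine mul_le_mul_of_nonneg_left (zpow_le_zpow_right₀ hl.le ?_) (by linarith)
          omega
        linarith
    · obtain ⟨j, rfl⟩ := Nat.exists_eq_add_of_le hnt
      have a1 := hpast j (by omega)
      have e1 : (((t + j : ℕ) : ℤ) - t) = (j : ℤ) := by push_cast; ring
      rw [e1]
      have a2 := hgpast (((t + j : ℕ) : ℤ) - ((J' + t + h : ℕ) : ℤ)) (by push_cast; omega)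
        (by push_cast; omega)
      have a3 := hd_add_ge (Z' (j : ℤ)) (g k (((t + j : ℕ) : ℤ) - ((J' + t + h : ℕ) : ℤ)))
      have a4 : ε * (1 / 2) ^ K ≤ ν / 2 * (1 / 2) ^ K := mul_le_mul_of_nonneg_right hεν h2K.le
      have a5 : ν * (1 + (1 / 2) ^ (K + 1)) = ν * (1 + (1 / 2) ^ K) - ν / 2 * (1 / 2) ^ K := by
        rw [pow_succ]
        ring
      linarith
  · refine ⟨p + p2, ?_⟩
    simp only []
    have e1 : (((J' + t + h : ℕ) : ℤ) - t) = ((J' + h : ℕ) : ℤ) := by push_cast; ring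
    rw [e1, sub_self, hp, hp2]
    push_cast
    ring
  · intro n hn1 hnK
    simp only []
    have e1 : (((J' + t + h + n : ℕ) : ℤ) - t) = ((J' + h + n : ℕ) : ℤ) := by push_cast; ring
    have e2 : (((J' + t + h + n : ℕ) : ℤ) - ((J' + t + h : ℕ) : ℤ)) = (n : ℤ) := by
      push_cast; ring
    rw [e1, e2]
    rcases Nat.lt_or_ge (blk n) K with hb1 | hb1
    · have a1 := hfut n hn1 hb1
      have a2 := hgfut n hn1 hb1
      have a3 := hd_add_ge (Z' ((J' + h + n : ℕ) : ℤ)) (g k (n : ℤ))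
      obtain ⟨d, hd'⟩ : ∃ d, K = blk n + 1 + d := ⟨K - (blk n + 1), by omega⟩
      have f1 : K - 1 - blk n = d := by omega
      have f2 : K + 1 - 1 - blk n = d + 1 := by omega
      have f3 : K - blk n = d + 1 := by omega
      rw [f1] at a1
      rw [f2]
      rw [f3] at a2
      have f4 : m n * (3 / 4 + 1 / 4 * (1 / 2) ^ (d + 1)) =
          m n * (3 / 4 + 1 / 4 * (1 / 2) ^ d) - m n / 4 * (1 / 2) ^ (d + 1) := by
        rw [pow_succ]
        ring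
      linarith
    · have hbK : blk n = K := by omega
      have a1 := hk2 n hn1 hbK
      have f2 : K + 1 - 1 - blk n = 0 := by omega
      rw [f2, pow_zero]
      linarith

theorem t_hkx : HKXStmt := by
  intro V β l M H R κ κ' μ ν ε c blk m hF hM hk h8 hν h4 _ hεν _ hAv hHt hLev K
  have : HK V l H κ ν c blk m K := by
    induction K with
    | zero => exact hk_base hF hM hk hν h4 hAv hHt
    | succ K ih => exact hk_step hF hM hk h8 hν h4 hεν hAv hLev ih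
  exact this

end Pool.LSP
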