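import Pool.Agent.H85.LSP.All
import Pool.Agent.H85.LSP.HKX
import Pool.Agent.H85.LSP.ABS
import Pool.Agent.H85.LSP.AVX
import Pool.Agent.H85.LSP.FIN
import Pool.Agent.H38.LSQ.WTS
import Pool.Agent.H47.LSQ.JMB
import Pool.Agent.H62.LSQ.FRM
import Pool.Agent.H62.LSQ.JMA
import Pool.Agent.H62.LSQ.MVO
import Pool.Agent.H63.LSQ.SUA
import Pool.Agent.H70.LSQ.FAT
import Pool.Agent.H70.LSQ.SUB
import Pool.Agent.H80.LSQ.DVD
import Pool.Agent.H80.LSQ.PHL
import Pool.Agent.H80.LSQ.TRM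
import Pool.Agent.H91.LSQ.LMX

/-!
# LSQ: the main theorem
-/

set_option autoImplicit false

namespace Pool.LSP

theorem main2 : Main2Stmt := by
  have hGEN : GENStmt := t_gen t_pig (t_nst t_pig)
  have hCON : CONStmt := t_con
  have hABS : ABSStmt := t_abs (t_avx hGEN) (t_chx hCON) t_trm t_hkx (t_lmx t_lsm)
  have hWTS : WTSStmt := t_wts t_eul
  have hFAT : FATStmt := t_fat t_dvd
  exact t_fin hABS t_frm t_mvo (t_sua hWTS t_phl t_dvd hFAT) (t_sub hWTS t_phl t_dvd) t_jma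
    (t_jmb hCON t_cn1) main

end Pool.LSP
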