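import Mathlib

/-!
# Lagrange-type spectra of linear recurrences

`Lk P k` is the spectrum `L^(k)(P)`: the set of the numbers `limsup ‖x_n‖`, where
`x_n = ∑ g_α(n) α ^ n`, the sum is over the roots `α` of `P` with `|α| > 1`, and the `g_α` are
polynomials of degree at most `k`.
-/

set_option autoImplicit false

namespace Pool.LSP

open Polynomial Filter Topology Finset
open scoped ComplexConjugate

/-- Distance to the nearest integer. -/
noncomputable def nr (x : ℝ) : ℝ := |x - round x|

/-- The complex roots of `P`. -/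
noncomputable def Rt (P : ℤ[X]) : Multiset ℂ := (P.map (Int.castRingHom ℂ)).roots

open Classical in
/-- The complex roots of `P` of modulus greater than one. -/
noncomputable def Out (P : ℤ[X]) : Finset ℂ := (Rt P).toFinset.filter (fun α => 1 < ‖α‖)

/-- The tuples `(g_α)`, `α` a root of modulus greater than one: complex polynomials of degree at
most `k`, conjugate polynomials for conjugate roots (hence real polynomials for real roots). -/
def Xi (P : ℤ[X]) (k : ℕ) (g : ℂ → ℂ[X]) : Prop :=
  ∀ α ∈ Out P, (g α).natDegree ≤ k ∧ g (conj α) = (g α).map (starRingEnd ℂ)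

/-- The sequence `x_n(g) = ∑ g_α(n) α ^ n` (a real number if `g` belongs to `Xi P k`). -/
noncomputable def xs (P : ℤ[X]) (g : ℂ → ℂ[X]) (n : ℕ) : ℝ :=
  (∑ α ∈ Out P, (g α).eval (n : ℂ) * α ^ n).re

/-- The spectrum: the values of `limsup ‖x_n(g)‖`. -/
def Lk (P : ℤ[X]) (k : ℕ) : Set ℝ :=
  {c | ∃ g : ℂ → ℂ[X], Xi P k g ∧ limsup (fun n : ℕ => nr (xs P g n)) atTop = c}

/-- The conditions on `P`: positive degree and leading coefficient, coprime coefficients, nonzero
constant coefficient, no multiple roots, and each irreducible factor has a root of modulus greater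
than one. -/
structure Adm (P : ℤ[X]) : Prop where
  deg : 1 ≤ P.natDegree
  lead : 1 ≤ P.leadingCoeff
  prim : P.IsPrimitive
  zero : P.coeff 0 ≠ 0
  nodup : (Rt P).Nodup
  out : ∀ Q : ℤ[X], Irreducible Q → Q ∣ P → (Out Q).Nonempty

/-- The spectrum has a subinterval of positive length. -/
def Itv (P : ℤ[X]) (k : ℕ) : Prop := ∃ a b : ℝ, a < b ∧ Set.Icc a b ⊆ Lk P k

/-- The spectrum has a terminal interval `[v, 1/2]`, `0 < v < 1/2`. -/
def Ter (P : ℤ[X]) (k : ℕ) : Prop := ∃ v : ℝ, 0 < v ∧ v < 1 / 2 ∧ Set.Icc v (1 / 2) ⊆ Lk P k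

/-- No root of modulus one. -/
def Hyp (P : ℤ[X]) : Prop := ∀ α ∈ Rt P, ‖α‖ ≠ 1

end Pool.LSP
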