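/-
helper85. LSP: Lagrange-type spectra of linear recurrences (MP_cae670_nt).
Definitions and the statements of the modules. Page: K_LSP_helper85.md.
-/
import Pool.Agent.H85.LSP.Sp

set_option autoImplicit false

namespace Pool.LSP

open Polynomial Filter Topology Finset
open scoped ComplexConjugate

/-- Distance to the nearest element of `1/2 + ℤ`. -/
noncomputable def hd (x : ℝ) : ℝ := nr (x - 1 / 2)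

/-- The main theorem. -/
def MainStmt : Prop :=
  ∀ P : ℤ[X], Adm P →
    (∀ k : ℕ, 1 ≤ k → Ter P k) ∧
    ((∃ β ∈ Out P, ∃ γ ∈ Out P, ‖β‖ ≠ ‖γ‖) → ∀ k : ℕ, Ter P k) ∧
    ((∃ Q : ℤ[X], Q ∣ P ∧ Q.Monic ∧ Hyp Q ∧ ∃ γ ∈ Rt Q, ‖γ‖ < 1) → ∀ k : ℕ, Ter P k) ∧
    ((∃ (m : ℕ) (a : ℤ), 1 ≤ m ∧ ∀ α ∈ Out P, α ^ m = (a : ℂ)) → ¬ Itv P 0)

/-! ### A: avoiding the holes -/

/-- The constant of `PIG`. -/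
def qq (m : ℕ) : ℝ := 32 * ((m : ℝ) + 1) ^ 3

/-- PIG: pigeonhole in a disc -/
def PIGStmt : Prop :=
  ∀ (m : ℕ) (ι : Type) (S : Finset ι) (φ : ι → ℝ) (w : ι → ℂ) (z : ℂ) (r : ℝ), 0 < r →
    S.card ≤ m → (∀ i ∈ S, w i ≠ 0) → (∀ i ∈ S, 4 * r * ‖w i‖ ≤ 1) →
    ∃ z' : ℂ, ∀ u : ℂ, ‖u - z'‖ ≤ r / qq m →
      ‖u - z‖ ≤ r ∧ ∀ i ∈ S, r * ‖w i‖ / qq m ≤ hd (φ i + (u * w i).re)

open Classical in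
/-- NST: nested discs -/
def NSTStmt : Prop :=
  ∀ (m : ℕ) (ι : Type) (S : Finset ι) (φ : ι → ℝ) (w : ι → ℂ) (z : ℂ) (W : ℝ), 0 < W →
    (∀ i ∈ S, W < ‖w i‖) →
    (∀ X : ℝ, W ≤ X → (S.filter (fun i => X < ‖w i‖ ∧ ‖w i‖ ≤ qq m * X)).card ≤ m) →
    ∃ z' : ℂ, ‖z' - z‖ ≤ 1 / (4 * qq m * W) ∧
      ∀ i ∈ S, 1 / (4 * qq m ^ 2) ≤ hd (φ i + (z' * w i).re)

open Classical in
/-- GEN: a first set `S₀` of events, then lacunary ones -/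
def GENStmt : Prop :=
  ∀ (m : ℕ) (ι : Type) (S₀ S₁ : Finset ι) (φ : ι → ℝ) (w : ι → ℂ) (W : ℝ), 0 < W →
    S₀.card ≤ m → (∀ i ∈ S₀, w i ≠ 0 ∧ ‖w i‖ ≤ W) → (∀ i ∈ S₁, W < ‖w i‖) →
    (∀ X : ℝ, W ≤ X → (S₁.filter (fun i => X < ‖w i‖ ∧ ‖w i‖ ≤ qq m * X)).card ≤ m) →
    ∃ z : ℂ, ‖z‖ ≤ 1 / (4 * W) ∧
      (∀ i ∈ S₀, ‖w i‖ / (4 * qq m * W) ≤ hd (φ i + (z * w i).re)) ∧
      ∀ i ∈ S₁, 1 / (4 * qq m ^ 2) ≤ hd (φ i + (z * w i).re)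

/-- CON: choice of the number of events -/
def CONStmt : Prop :=
  ∀ lam : ℝ, 1 < lam → ∀ (K : ℝ) (b : ℕ), ∃ M : ℕ, b ≤ M ∧ 1 ≤ M ∧
    K * ((2 * M + b + 1 : ℕ) : ℝ) ^ 6 ≤ lam ^ M

/-- AVO: one-sided avoidance with two levels -/
def AVOStmt : Prop :=
  ∀ (w : ℤ → ℂ) (lam C K : ℝ) (j₀ : ℤ), 1 < lam → (∀ j, j ≠ 0 → w j ≠ 0) →
    (∀ j, j₀ ≤ j → lam * ‖w j‖ ≤ ‖w (j + 1)‖) → (∀ j, j ≤ 0 → ‖w j‖ ≤ C * lam ^ j) →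
    ∃ (μ δ : ℝ) (R R₁ : ℕ), 0 < δ ∧ δ ≤ μ ∧ K ≤ μ * lam ^ R ∧
      ∀ (φ : ℤ → ℝ) (J : ℕ), ∃ z : ℂ, ‖z‖ ≤ 1 ∧
        (∀ j : ℤ, -(R : ℤ) < j → j ≤ R₁ → j ≠ 0 → δ ≤ hd (φ j + (z * w j).re)) ∧
        ∀ j : ℤ, (R₁ : ℤ) < j → j ≤ J → μ ≤ hd (φ j + (z * w j).re)

/-- AVT: two-sided avoidance -/
def AVTStmt : Prop :=
  ∀ (w : ℤ → ℂ) (lam : ℝ) (j₀ : ℤ), 1 < lam → (∀ j, j ≠ 0 → w j ≠ 0) →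
    (∀ j, j₀ ≤ j → lam * ‖w j‖ ≤ ‖w (j + 1)‖ ∧ lam * ‖w (-j)‖ ≤ ‖w (-(j + 1))‖) →
    ∃ μ : ℝ, 0 < μ ∧ ∀ (φ : ℤ → ℝ) (J : ℕ), ∃ z : ℂ,
      ∀ j : ℤ, j ≠ 0 → |j| ≤ J → μ ≤ hd (φ j + (z * w j).re)

/-! ### B: the sequences of the first kind -/

/-- LSM: a limsup -/
def LSMStmt : Prop :=
  ∀ (f : ℕ → ℝ) (c : ℝ), (∀ n, 0 ≤ f n ∧ f n ≤ 1 / 2) →
    (∀ ε : ℝ, 0 < ε → ∀ᶠ n in atTop, f n ≤ c + ε) →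
    (∀ ε : ℝ, 0 < ε → ∃ᶠ n in atTop, c - ε ≤ f n) → limsup f atTop = c

/-- the sequence with parameter `p` -/
noncomputable def ev (h h' : ℤ → ℂ) (n : ℤ) (p : ℂ × ℂ) : ℝ := (p.1 * h n + p.2 * h' n).re

/-- SEQ: existence of a sequence with prescribed `limsup` in a two-dimensional family -/
def SEQStmt : Prop :=
  ∀ (h h' : ℤ → ℂ) (B : ℤ → ℝ) (w : ℤ → ℂ) (b : ℕ → ℂ × ℂ) (d : ℕ → ℂ → ℂ × ℂ) (lam C : ℝ)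
    (j₀ : ℤ), 1 < lam → B 0 = 1 → (∀ j, j ≤ 0 → |B j| ≤ C * lam ^ j) → w 0 = 0 →
    (∀ j, j ≠ 0 → w j ≠ 0) → (∀ j, j₀ ≤ j → lam * ‖w j‖ ≤ ‖w (j + 1)‖) →
    (∀ j, j ≤ 0 → ‖w j‖ ≤ C * lam ^ j) →
    (∀ (N : ℕ) (n : ℤ), ev h h' n (b N) = B (n - N)) →
    (∀ (N : ℕ) (z : ℂ) (n : ℤ), ev h h' n (d N z) = (z * w (n - N)).re) →
    (∀ ε : ℝ, 0 < ε → ∃ T : ℕ, ∀ N : ℕ, T ≤ N → ‖b N‖ ≤ ε ∧ ∀ z : ℂ, ‖z‖ ≤ 1 → ‖d N z‖ ≤ ε) →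
    ∃ v : ℝ, 0 < v ∧ v < 1 / 2 ∧ ∀ c ∈ Set.Icc v (1 / 2), ∃ p : ℂ × ℂ,
      limsup (fun n : ℕ => nr (ev h h' n p)) atTop = c

/-- FAA: polynomial coefficients -/
def FAAStmt : Prop :=
  ∀ β : ℂ, 1 < ‖β‖ → ∃ v : ℝ, 0 < v ∧ v < 1 / 2 ∧ ∀ c ∈ Set.Icc v (1 / 2), ∃ A A' : ℂ,
    limsup (fun n : ℕ => nr (((A + A' * n) * β ^ n).re)) atTop = c

/-- FAB: two moduli -/
def FABStmt : Prop :=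
  ∀ β γ : ℂ, 1 < ‖γ‖ → ‖γ‖ < ‖β‖ → ∃ v : ℝ, 0 < v ∧ v < 1 / 2 ∧ ∀ c ∈ Set.Icc v (1 / 2),
    ∃ A A' : ℂ, limsup (fun n : ℕ => nr ((A * β ^ n + A' * γ ^ n).re)) atTop = c

/-- MEM: elements of `Xi P k` -/
def MEMStmt : Prop :=
  ∀ (P : ℤ[X]) (k : ℕ),
    (∀ β ∈ Out P, ∀ q : ℂ[X], q.natDegree ≤ k → ∃ g : ℂ → ℂ[X], Xi P k g ∧
      ∀ n : ℕ, xs P g n = (q.eval (n : ℂ) * β ^ n).re) ∧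
    ∀ g g' : ℂ → ℂ[X], Xi P k g → Xi P k g' → Xi P k (fun α => g α + g' α) ∧
      ∀ n : ℕ, xs P (fun α => g α + g' α) n = xs P g n + xs P g' n

/-- OUT: facts on the roots -/
def OUTStmt : Prop :=
  (∀ P : ℤ[X], Adm P → (Out P).Nonempty) ∧
  (∀ P Q : ℤ[X], Adm P → Q ∣ P → (∃ γ, γ ∈ Rt Q) →
    (Rt Q).Nodup ∧ Q.coeff 0 ≠ 0 ∧ ∃ β ∈ Rt Q, 1 < ‖β‖) ∧
  (∀ P Q : ℤ[X], P ≠ 0 → Q ∣ P → ∀ k : ℕ, Lk Q k ⊆ Lk P k)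

/-- TH1 -/
def TH1Stmt : Prop :=
  ∀ P : ℤ[X], Adm P → (∀ k : ℕ, 1 ≤ k → Ter P k) ∧
    ((∃ β ∈ Out P, ∃ γ ∈ Out P, ‖β‖ ≠ ‖γ‖) → ∀ k : ℕ, Ter P k)

/-- NOI: no interval -/
def NOIStmt : Prop :=
  ∀ P : ℤ[X], (Out P).Nonempty → (∃ (m : ℕ) (a : ℤ), 1 ≤ m ∧ ∀ α ∈ Out P, α ^ m = (a : ℂ)) →
    ¬ Itv P 0

/-! ### C: monic hyperbolic polynomials with a root inside the unit disc -/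

/-- `(P(S) s)_n`, `S` the shift -/
noncomputable def Pr (P : ℤ[X]) (s : ℤ → ℝ) (n : ℤ) : ℝ :=
  ∑ i ∈ range (P.natDegree + 1), (P.coeff i : ℝ) * s (n + i)

/-- `κ` is the bounded solution of `P(S) κ = δ₀` -/
structure Ker (P : ℤ[X]) (κ : ℤ → ℝ) (C lam : ℝ) : Prop where
  deg : 1 ≤ P.natDegree
  hC : 0 < C
  hl : 1 < lam
  dec : ∀ n : ℤ, |κ n| ≤ C * lam ^ (-|n|)
  sol : ∀ n : ℤ, Pr P κ n = if n = 0 then 1 else 0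
  pos : ∀ x : ℤ, 1 ≤ x → ∃ i : ℕ, i < P.natDegree ∧ κ (x + i) ≠ 0
  neg : ∀ x : ℤ, x ≤ 0 → ∃ i : ℕ, i < P.natDegree ∧ κ (x - i) ≠ 0

/-- convolution of `κ` with an integer sequence -/
noncomputable def cv (κ : ℤ → ℝ) (e : ℤ → ℤ) (n : ℤ) : ℝ := ∑' j : ℤ, κ (n - j) * (e j : ℝ)

open Classical in
/-- EUL: Lagrange weights -/
def EULStmt : Prop :=
  ∀ S : Finset ℂ, ∃ w : ℂ → ℂ, (∀ α ∈ S, w α ≠ 0) ∧ (∀ α, S.image (fun β => conj β) = S →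
    w (conj α) = conj (w α)) ∧
    ∀ k : ℕ, k + 1 ≤ S.card → ∑ α ∈ S, w α * α ^ k = if k + 1 = S.card then 1 else 0

/-- KAP: existence of the kernel -/
def KAPStmt : Prop :=
  ∀ P : ℤ[X], P.Monic → (Rt P).Nodup → Hyp P → P.coeff 0 ≠ 0 → (∃ β ∈ Rt P, 1 < ‖β‖) →
    (∃ γ ∈ Rt P, ‖γ‖ < 1) → ∃ (κ : ℤ → ℝ) (C lam : ℝ), Ker P κ C lam

/-- REP: a bounded sequence is the convolution of `κ` and `P(S) s` -/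
def REPStmt : Prop :=
  ∀ (P : ℤ[X]) (κ : ℤ → ℝ) (C lam : ℝ), Ker P κ C lam →
    ∀ (s : ℤ → ℝ) (D : ℝ), (∀ n, |s n| ≤ D) → ∀ n, s n = ∑' j : ℤ, κ (n - j) * Pr P s j

/-- CVB: the convolution -/
def CVBStmt : Prop :=
  ∀ (P : ℤ[X]) (κ : ℤ → ℝ) (C lam : ℝ), Ker P κ C lam → ∃ D : ℝ, 0 < D ∧
    (∀ (L : ℝ) (e : ℤ → ℤ), (∀ j, |(e j : ℝ)| ≤ L) → ∀ n, Pr P (cv κ e) n = e n) ∧
    (∀ (L : ℝ) (e e' : ℤ → ℤ), (∀ j, |(e j : ℝ)| ≤ L) → (∀ j, |(e' j : ℝ)| ≤ L) →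
      ∀ b : ℤ, (∀ j, j < b → e j = e' j) → ∀ n, n ≤ b →
        |cv κ e n - cv κ e' n| ≤ D * L * lam ^ (n - b)) ∧
    (∀ (L : ℝ) (e e' : ℤ → ℤ), (∀ j, |(e j : ℝ)| ≤ L) → (∀ j, |(e' j : ℝ)| ≤ L) →
      ∀ a : ℤ, (∀ j, a ≤ j → e j = e' j) → ∀ n, a ≤ n →
        |cv κ e n - cv κ e' n| ≤ D * L * lam ^ (a - n)) ∧
    ∀ (L : ℝ) (e : ℤ → ℤ), (∀ j, |(e j : ℝ)| ≤ L) → ∀ a n : ℤ,
      cv κ (fun j => e (j + a)) n = cv κ e (n + a)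

/-- WIN: the windows, as real solutions -/
def WINStmt : Prop :=
  ∀ P : ℤ[X], (∃ β ∈ Rt P, 1 < ‖β‖) → (∃ γ ∈ Rt P, ‖γ‖ < 1) → P.coeff 0 ≠ 0 →
    ∃ μ : ℝ, 0 < μ ∧ ∀ (c : ℝ) (J : ℕ), ∃ x : ℤ → ℝ, x 0 = c ∧
      (∀ j : ℤ, j ≠ 0 → |j| ≤ J → μ ≤ hd (x j)) ∧ ∀ n, Pr P x n = 0

/-- DIG: the windows, as digits -/
def DIGStmt : Prop :=
  ∀ (P : ℤ[X]) (κ : ℤ → ℝ) (C lam : ℝ), Ker P κ C lam → ∃ L : ℕ, ∀ x : ℤ → ℝ,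
    (∀ n, Pr P x n = 0) → ∃ e : ℤ → ℤ, (∀ j, |e j| ≤ L) ∧ ∀ n, ∃ p : ℤ, cv κ e n = x n + p

open Classical in
/-- CNT: counting functions -/
def CNTStmt : Prop :=
  ∀ (I Z : Type) [Fintype I] [Fintype Z] (q K : ℕ) (Bad : Z → (I → Fin q) → Prop) (i : Z → I),
    (∀ (n : Z) (g : I → Fin q),
      (univ.filter (fun a : Fin q => Bad n (Function.update g (i n) a))).card ≤ K) →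
    Fintype.card Z * K < q → ∃ g : I → Fin q, ∀ n, ¬ Bad n g

open Classical in
/-- CN1: one digit -/
def CN1Stmt : Prop :=
  ∀ (q : ℕ) (a κ δ : ℝ), κ ≠ 0 → 2 * δ ≤ |κ| → q * |κ| ≤ 1 →
    (univ.filter (fun t : Fin q => hd (a + (t : ℕ) * κ) < δ)).card ≤ 2

/-- two sequences with a block in between -/
def glue (m : ℕ) (eL p eR : ℤ → ℤ) (j : ℤ) : ℤ := if j < 0 then eL j else if j < m then p j else eR j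

/-- JUN: the junction -/
def JUNStmt : Prop :=
  ∀ (P : ℤ[X]) (κ : ℤ → ℝ) (C lam : ℝ), Ker P κ C lam → ∀ (L : ℕ) (μ D : ℝ), 0 < μ → 0 < D →
    ∃ (δ : ℝ) (m R Q : ℕ), 0 < δ ∧ L ≤ Q ∧ D * Q ≤ μ * lam ^ R ∧
      ∀ eL eR : ℤ → ℤ, (∀ j, |eL j| ≤ L) → (∀ j, |eR j| ≤ L) →
        ∃ p : ℤ → ℤ, (∀ j, |p j| ≤ Q) ∧
          ∀ n : ℤ, -(R : ℤ) ≤ n → n < m + R → δ ≤ hd (cv κ (glue m eL p eR) n)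

/-- ASM: the infinite sequence of digits -/
def ASMStmt : Prop :=
  ∀ (P : ℤ[X]) (κ : ℤ → ℝ) (C lam : ℝ), Ker P κ C lam → ∀ (L : ℕ) (μ : ℝ), 0 < μ →
    (∀ (c : ℝ) (J : ℕ), ∃ e : ℤ → ℤ, (∀ j, |e j| ≤ L) ∧ (∃ p : ℤ, cv κ e 0 = c + p) ∧
      ∀ j : ℤ, j ≠ 0 → |j| ≤ J → μ ≤ hd (cv κ e j)) →
    ∃ v : ℝ, 0 < v ∧ v < 1 / 2 ∧ ∀ c ∈ Set.Icc v (1 / 2), ∃ (e : ℤ → ℤ) (Q : ℝ),
      (∀ j, |(e j : ℝ)| ≤ Q) ∧ limsup (fun n : ℕ => nr (cv κ e n)) atTop = c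

/-- RTS: solutions of the recurrence are sums over the roots -/
def RTSStmt : Prop :=
  ∀ P : ℤ[X], P.Monic → (Rt P).Nodup → ∀ z : ℕ → ℝ,
    (∀ n : ℕ, ∑ i ∈ range (P.natDegree + 1), (P.coeff i : ℝ) * z (n + i) = 0) →
    ∃ c : ℂ → ℂ, (∀ α ∈ Rt P, c (conj α) = conj (c α)) ∧
      ∀ n : ℕ, (z n : ℂ) = ((Rt P).map (fun α => c α * α ^ n)).sum

/-- CNV: from a solution modulo one to an element of `Xi P 0` -/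
def CNVStmt : Prop :=
  ∀ P : ℤ[X], P.Monic → (Rt P).Nodup → Hyp P → ∀ s : ℤ → ℝ,
    (∀ n : ℤ, 0 ≤ n → ∃ e : ℤ, Pr P s n = e) →
    ∃ g : ℂ → ℂ[X], Xi P 0 g ∧
      Tendsto (fun n : ℕ => nr (xs P g n) - nr (s n)) atTop (𝓝 0)

/-- TH3 -/
def TH3Stmt : Prop :=
  ∀ Q : ℤ[X], Q.Monic → (Rt Q).Nodup → Hyp Q → Q.coeff 0 ≠ 0 → (∃ β ∈ Rt Q, 1 < ‖β‖) →
    (∃ γ ∈ Rt Q, ‖γ‖ < 1) → ∀ k : ℕ, Ter Q k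

end Pool.LSP
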