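import Pool.Agent.H85.LSP.Nr

/-!
# LSP: existence of a sequence with prescribed `limsup` in a two-dimensional family
-/

set_option autoImplicit false

namespace Pool.LSP

open Filter Topology

namespace SEQ

section

variable {h h' : ℤ → ℂ} {B : ℤ → ℝ} {w : ℤ → ℂ} {b : ℕ → ℂ × ℂ} {d : ℕ → ℂ → ℂ × ℂ}
  {lam C μ δ : ℝ} {R R₁ : ℕ}

theorem ev_add (n : ℤ) (p q : ℂ × ℂ) : ev h h' n (p + q) = ev h h' n p + ev h h' n q := by
  unfold ev
  rw [← Complex.add_re]
  congr 1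
  simp only [Prod.fst_add, Prod.snd_add]
  ring

theorem ev_smul (n : ℤ) (a : ℝ) (p : ℂ × ℂ) : ev h h' n (a • p) = a * ev h h' n p := by
  unfold ev
  simp only [Prod.smul_fst, Prod.smul_snd, smul_mul_assoc, Complex.add_re, Complex.smul_re,
    smul_eq_mul]
  ring

theorem ev_cont (n : ℤ) : Continuous (ev h h' n) := by
  unfold ev
  fun_prop

/-- One stage. -/
theorem stage (hB0 : B 0 = 1) (hB : ∀ j, j ≤ 0 → |B j| ≤ C * lam ^ j) (hw0 : w 0 = 0)
    (hw : ∀ j, j ≤ 0 → ‖w j‖ ≤ C * lam ^ j)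
    (hb : ∀ (N : ℕ) (n : ℤ), ev h h' n (b N) = B (n - N))
    (hd' : ∀ (N : ℕ) (z : ℂ) (n : ℤ), ev h h' n (d N z) = (z * w (n - N)).re)
    (hav : ∀ (φ : ℤ → ℝ) (J : ℕ), ∃ z : ℂ, ‖z‖ ≤ 1 ∧
        (∀ j : ℤ, -(R : ℤ) < j → j ≤ R₁ → j ≠ 0 → δ ≤ hd (φ j + (z * w j).re)) ∧
        ∀ j : ℤ, (R₁ : ℤ) < j → j ≤ J → μ ≤ hd (φ j + (z * w j).re))
    (c : ℝ) (N J : ℕ) (ε : ℝ) (hbε : ‖b N‖ ≤ ε) (hdε : ∀ z : ℂ, ‖z‖ ≤ 1 → ‖d N z‖ ≤ ε)
    (g : ℂ × ℂ) :
    ∃ g' : ℂ × ℂ, ‖g' - g‖ ≤ 2 * ε ∧ (∃ p : ℤ, ev h h' N g' = c + p) ∧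
      (∀ n : ℤ, n ≤ N → |ev h h' n g' - ev h h' n g| ≤ 2 * C * lam ^ (n - N)) ∧
      (∀ j : ℤ, -(R : ℤ) < j → j ≤ R₁ → j ≠ 0 → δ ≤ hd (ev h h' (N + j) g')) ∧
      ∀ j : ℤ, (R₁ : ℤ) < j → j ≤ J → μ ≤ hd (ev h h' (N + j) g') := by
  set y : ℝ := ev h h' N g with hy
  set σ : ℝ := (c - y) - round (c - y) with hσ
  have hσ1 : |σ| ≤ 1 / 2 := abs_sub_round _
  obtain ⟨z, hz1, hz2, hz3⟩ := hav (fun j => ev h h' (N + j) g + σ * B j) J
  have hev : ∀ n : ℤ, ev h h' n (g + σ • b N + d N z) =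
      ev h h' n g + σ * B (n - N) + (z * w (n - N)).re := by
    intro n
    rw [ev_add, ev_add, ev_smul, hb, hd']
  have hev' : ∀ j : ℤ, ev h h' (N + j) (g + σ • b N + d N z) =
      ev h h' (N + j) g + σ * B j + (z * w j).re := by
    intro j
    rw [hev]
    have e : (N : ℤ) + j - N = j := by ring
    rw [e]
  have hε : 0 ≤ ε := le_trans (norm_nonneg _) hbε
  refine ⟨g + σ • b N + d N z, ?_, ?_, ?_, ?_, ?_⟩
  · have e : g + σ • b N + d N z - g = σ • b N + d N z := by abel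
    rw [e]
    refine le_trans (norm_add_le _ _) ?_
    have h1 : ‖σ • b N‖ ≤ ε := by
      rw [norm_smul, Real.norm_eq_abs]
      have : |σ| * ‖b N‖ ≤ (1 / 2) * ε :=
        mul_le_mul hσ1 hbε (norm_nonneg _) (by norm_num)
      linarith
    have h2 := hdε z hz1
    linarith
  · refine ⟨-round (c - y), ?_⟩
    have h0 := hev N
    rw [sub_self, hB0, hw0, mul_zero, Complex.zero_re, ← hy] at h0
    rw [h0, hσ]
    push_cast
    ring
  · intro n hn
    rw [hev]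
    have hn' : n - N ≤ 0 := by omega
    have h1 := hB _ hn'
    have h2 := hw _ hn'
    have h3 : |(z * w (n - N)).re| ≤ C * lam ^ (n - N) := by
      refine le_trans (Complex.abs_re_le_norm _) ?_
      rw [norm_mul]
      have : ‖z‖ * ‖w (n - N)‖ ≤ 1 * ‖w (n - N)‖ :=
        mul_le_mul_of_nonneg_right hz1 (norm_nonneg _)
      linarith
    have h4 : |σ * B (n - N)| ≤ C * lam ^ (n - N) := by
      rw [abs_mul]
      have h5 : |σ| * |B (n - N)| ≤ 1 * |B (n - N)| :=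
        mul_le_mul_of_nonneg_right (by linarith) (abs_nonneg _)
      linarith
    have e : ev h h' n g + σ * B (n - N) + (z * w (n - N)).re - ev h h' n g =
        σ * B (n - N) + (z * w (n - N)).re := by ring
    rw [e]
    refine le_trans (abs_add_le _ _) ?_
    linarith
  · intro j h1 h2 h3
    rw [hev']
    exact hz2 j h1 h2 h3
  · intro j h1 h2
    rw [hev']
    exact hz3 j h1 h2

end

/-- The times. -/
def tm (T : ℕ → ℕ) (G : ℕ) : ℕ → ℕ
  | 0 => T 0
  | k + 1 => tm T G k + (G + k) + T (k + 1)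

theorem tm_ge (T : ℕ → ℕ) (G k : ℕ) : T k ≤ tm T G k := by
  cases k with
  | zero => exact le_rfl
  | succ k => simp only [tm]; omega

theorem tm_succ (T : ℕ → ℕ) (G k : ℕ) : tm T G k + (G + k) ≤ tm T G (k + 1) := by
  simp only [tm]
  omega

theorem tm_le (T : ℕ → ℕ) (G : ℕ) {k l : ℕ} (h : k ≤ l) : tm T G k ≤ tm T G l :=
  monotone_nat_of_le_succ (fun n => le_trans (Nat.le_add_right _ _) (tm_succ T G n)) h

theorem tm_large (T : ℕ → ℕ) {G : ℕ} (hG : 1 ≤ G) (k : ℕ) : k ≤ tm T G k := by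
  induction k with
  | zero => exact Nat.zero_le _
  | succ k ih =>
    have := tm_succ T G k
    omega

theorem tm_lt (T : ℕ → ℕ) {G : ℕ} (hG : 1 ≤ G) {k l : ℕ} (h : k < l) : tm T G k < tm T G l := by
  have h1 := tm_succ T G k
  have h2 := tm_le T G (Nat.succ_le_of_lt h)
  simp only [Nat.succ_eq_add_one] at h2
  omega

/-- `lam ^ (N_(k+i) - N_k) ≥ 2 ^ i`. -/
theorem tm_pow (T : ℕ → ℕ) {G : ℕ} {lam : ℝ} (hl : 1 < lam) (hG : 2 ≤ lam ^ G) (k i : ℕ) :
    (2 : ℝ) ^ i * lam ^ (tm T G k) ≤ lam ^ (tm T G (k + i)) := by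
  induction i with
  | zero => simp
  | succ i ih =>
    have h1 := tm_succ T G (k + i)
    have h2 : lam ^ (tm T G (k + i)) * lam ^ G ≤ lam ^ (tm T G (k + (i + 1))) := by
      rw [← pow_add]
      exact pow_le_pow_right₀ hl.le (by rw [← add_assoc]; omega)
    have h3 : (0 : ℝ) < lam ^ (tm T G (k + i)) := by positivity
    calc (2 : ℝ) ^ (i + 1) * lam ^ (tm T G k) = 2 * (2 ^ i * lam ^ (tm T G k)) := by ring
      _ ≤ 2 * lam ^ (tm T G (k + i)) := by linarith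
      _ ≤ lam ^ G * lam ^ (tm T G (k + i)) := mul_le_mul_of_nonneg_right hG h3.le
      _ = lam ^ (tm T G (k + i)) * lam ^ G := mul_comm _ _
      _ ≤ _ := h2

/-- The block of an integer. -/
theorem block (T : ℕ → ℕ) {G R : ℕ} (hG : R + 1 ≤ G) {n : ℤ} (hn : (tm T G 0 : ℤ) < n) :
    ∃ k : ℕ, (tm T G k : ℤ) - R < n ∧ n ≤ (tm T G (k + 1) : ℤ) - R := by
  classical
  have hex : ∃ k : ℕ, n ≤ (tm T G (k + 1) : ℤ) - R := by
    refine ⟨n.toNat, ?_⟩
    have h1 := tm_large T (by omega : 1 ≤ G) n.toNat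
    have h2 := tm_succ T G n.toNat
    have h3 := Int.self_le_toNat n
    omega
  refine ⟨Nat.find hex, ?_, Nat.find_spec hex⟩
  rcases Nat.eq_zero_or_pos (Nat.find hex) with h0 | h0
  · rw [h0]
    omega
  · have := Nat.find_min hex (m := Nat.find hex - 1) (by omega)
    rw [Nat.sub_add_cancel h0] at this
    omega

/-- The limit of the stages. -/
theorem limit {h h' : ℤ → ℂ} {lam C : ℝ} (T : ℕ → ℕ) {G : ℕ} (hl : 1 < lam) (hC : 0 ≤ C)
    (hG : 2 ≤ lam ^ G) (g : ℕ → ℂ × ℂ) (hg : ∀ k, ‖g (k + 1) - g k‖ ≤ (1 / 2) ^ k)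
    (hgn : ∀ k, ∀ n : ℤ, n ≤ tm T G k →
      |ev h h' n (g (k + 1)) - ev h h' n (g k)| ≤ 2 * C * lam ^ (n - tm T G k)) :
    ∃ p : ℂ × ℂ, ∀ k, ∀ n : ℤ, n ≤ tm T G k →
      |ev h h' n p - ev h h' n (g k)| ≤ 4 * C * lam ^ (n - tm T G k) := by
  have hl0 : (0 : ℝ) < lam := by linarith
  have hdist : ∀ k, dist (g k) (g (k + 1)) ≤ 1 * (1 / 2) ^ k := by
    intro k
    rw [dist_comm, dist_eq_norm, one_mul]
    exact hg k
  have hc : CauchySeq g := cauchySeq_of_le_geometric (1 / 2) 1 (by norm_num) hdist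
  obtain ⟨p, hp⟩ := cauchySeq_tendsto_of_complete hc
  refine ⟨p, ?_⟩
  intro k n hn
  have hstep : ∀ i : ℕ, dist (ev h h' n (g (k + i))) (ev h h' n (g (k + (i + 1)))) ≤
      (2 * C * lam ^ (n - tm T G k)) * (1 / 2) ^ i := by
    intro i
    rw [dist_comm, Real.dist_eq]
    have hle : n ≤ tm T G (k + i) := by
      have := tm_le T G (Nat.le_add_right k i)
      omega
    refine le_trans (hgn (k + i) n hle) ?_
    rw [mul_assoc (2 * C)]
    refine mul_le_mul_of_nonneg_left ?_ (by positivity)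
    have h1 := tm_pow T hl hG k i
    rw [zpow_sub₀ hl0.ne', zpow_sub₀ hl0.ne', zpow_natCast, zpow_natCast]
    have hA : (0 : ℝ) < lam ^ (tm T G k) := by positivity
    have hB : (0 : ℝ) < lam ^ (tm T G (k + i)) := by positivity
    have hn0 : (0 : ℝ) < lam ^ n := by positivity
    rw [div_mul_eq_mul_div, div_le_div_iff₀ hB hA]
    have h2 : (1 / 2 : ℝ) ^ i * 2 ^ i = 1 := by
      rw [← mul_pow]
      norm_num
    have h3 : lam ^ (tm T G k) ≤ (1 / 2 : ℝ) ^ i * lam ^ (tm T G (k + i)) := by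
      calc lam ^ (tm T G k) = ((1 / 2 : ℝ) ^ i * 2 ^ i) * lam ^ (tm T G k) := by rw [h2, one_mul]
        _ = (1 / 2 : ℝ) ^ i * (2 ^ i * lam ^ (tm T G k)) := by ring
        _ ≤ _ := mul_le_mul_of_nonneg_left h1 (by positivity)
    calc lam ^ n * lam ^ (tm T G k) ≤ lam ^ n * ((1 / 2 : ℝ) ^ i * lam ^ (tm T G (k + i))) :=
          mul_le_mul_of_nonneg_left h3 hn0.le
      _ = _ := by ring
  have hlim : Tendsto (fun i : ℕ => ev h h' n (g (k + i))) atTop (𝓝 (ev h h' n p)) := by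
    have h1 : Tendsto (fun i : ℕ => g (k + i)) atTop (𝓝 p) :=
      hp.comp (tendsto_atTop_mono (fun i => Nat.le_add_left i k) tendsto_id)
    exact ((ev_cont n).tendsto p).comp h1
  have h2 := dist_le_of_le_geometric_of_tendsto₀ (1 / 2) (2 * C * lam ^ (n - tm T G k))
    (by norm_num) hstep hlim
  rw [add_zero, dist_comm, Real.dist_eq] at h2
  refine le_trans h2 (le_of_eq ?_)
  ring

end SEQ

open SEQ in
/-- The sequences of the first kind. -/
theorem t_seq (hAVO : AVOStmt) (hLSM : LSMStmt) : SEQStmt := by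
  intro h h' B w b d lam C j₀ hl hB0 hB hw0 hwne hgr hw hb hd' hsmall
  have hl0 : (0 : ℝ) < lam := by linarith
  have hC : 1 ≤ C := by
    have := hB 0 le_rfl
    rw [hB0, zpow_zero, mul_one, abs_one] at this
    exact this
  have hC0 : (0 : ℝ) ≤ C := by linarith
  obtain ⟨μ, δ, R, R₁, hδ, hδμ, hK, hav⟩ := hAVO w lam C (8 * C) j₀ hl hwne hgr hw
  have hμ : 0 < μ := lt_of_lt_of_le hδ hδμ
  choose T hT using fun k : ℕ => hsmall ((1 / 2) ^ k / 2) (by positivity)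
  -- the gap
  obtain ⟨G, hG1, hG2, hG3⟩ : ∃ G : ℕ, R + R₁ + 1 ≤ G ∧ 2 ≤ lam ^ G ∧
      8 * C * lam ^ R₁ ≤ δ * lam ^ G := by
    have ht := tendsto_pow_atTop_atTop_of_one_lt hl
    have h1 := (ht.eventually_ge_atTop 2).and (ht.eventually_ge_atTop (8 * C * lam ^ R₁ / δ))
    obtain ⟨G, hG⟩ := (h1.and (eventually_ge_atTop (R + R₁ + 1))).exists
    refine ⟨G, hG.2, hG.1.1, ?_⟩
    have := hG.1.2
    rw [div_le_iff₀ hδ] at this
    linarith
  set N : ℕ → ℕ := tm T G with hN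
  refine ⟨max (1 / 4) (1 / 2 - δ / 2), lt_of_lt_of_le (by norm_num) (le_max_left _ _),
    max_lt (by norm_num) (by linarith), ?_⟩
  intro c hc
  have hc0 : 1 / 4 ≤ c := le_trans (le_max_left _ _) hc.1
  have hcδ : 1 / 2 - δ / 2 ≤ c := le_trans (le_max_right _ _) hc.1
  have hnrc : nr c = c := nr_of_mem (by linarith) hc.2
  -- the stages
  have hst : ∀ (k : ℕ) (g : ℂ × ℂ), ∃ g' : ℂ × ℂ, ‖g' - g‖ ≤ 2 * ((1 / 2) ^ k / 2) ∧
      (∃ p : ℤ, ev h h' (N k) g' = c + p) ∧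
      (∀ n : ℤ, n ≤ N k → |ev h h' n g' - ev h h' n g| ≤ 2 * C * lam ^ (n - N k)) ∧
      (∀ j : ℤ, -(R : ℤ) < j → j ≤ R₁ → j ≠ 0 → δ ≤ hd (ev h h' (N k + j) g')) ∧
      ∀ j : ℤ, (R₁ : ℤ) < j → j ≤ (N (k + 1) : ℕ) → μ ≤ hd (ev h h' (N k + j) g') := by
    intro k g
    have hTk := hT k (N k) (tm_ge T G k)
    exact stage hB0 hB hw0 hw hb hd' hav c (N k) (N (k + 1)) _ hTk.1 hTk.2 g
  choose nx hnx1 hnx2 hnx3 hnx4 hnx5 using hst
  set g : ℕ → ℂ × ℂ := fun k => Nat.rec 0 (fun k g => nx k g) k with hg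
  have hgs : ∀ k, g (k + 1) = nx k (g k) := fun k => rfl
  obtain ⟨p, hp⟩ := limit (h := h) (h' := h') T hl hC0 hG2 g
    (fun k => by
      rw [hgs]
      refine le_trans (hnx1 k (g k)) (le_of_eq (by ring)))
    (fun k n hn => by
      rw [hgs]
      exact hnx3 k (g k) n hn)
  refine ⟨p, ?_⟩
  -- the three kinds of times
  have hgap : ∀ k, N k + (G + k) ≤ N (k + 1) := fun k => tm_succ T G k
  have hcen : ∀ k, |nr (ev h h' (N k) p) - c| ≤ 4 * C * (1 / lam) ^ k := by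
    intro k
    have h1 := hp (k + 1) (N k) (by have := hgap k; simp only [hN] at this ⊢; omega)
    obtain ⟨q, hq⟩ := hnx2 k (g k)
    rw [← hgs] at hq
    have h2 : nr (ev h h' (N k) (g (k + 1))) = c := by rw [hq, nr_add_int, hnrc]
    have h3 := abs_nr_sub (ev h h' (N k) p) (ev h h' (N k) (g (k + 1)))
    rw [h2] at h3
    refine le_trans h3 (le_trans h1 ?_)
    refine mul_le_mul_of_nonneg_left ?_ (by positivity)
    rw [one_div, inv_pow, ← zpow_natCast, ← zpow_neg]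
    refine zpow_le_zpow_right₀ hl.le ?_
    have := hgap k
    simp only [hN] at this ⊢
    omega
  have hzone : ∀ k, ∀ j : ℤ, -(R : ℤ) < j → j ≤ R₁ → j ≠ 0 →
      δ / 2 ≤ hd (ev h h' (N k + j) p) := by
    intro k j h1 h2 h3
    have h4 := hnx4 k (g k) j h1 h2 h3
    rw [← hgs] at h4
    have hle : (N k : ℤ) + j ≤ N (k + 1) := by
      have := hgap k
      omega
    have h5 := hp (k + 1) (N k + j) hle
    have h6 := hd_ge_sub (ev h h' (N k + j) p) (ev h h' (N k + j) (g (k + 1)))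
    have h7 : 4 * C * lam ^ ((N k : ℤ) + j - (tm T G (k + 1) : ℕ)) ≤ δ / 2 := by
      have h8 : lam ^ ((N k : ℤ) + j - (tm T G (k + 1) : ℕ)) ≤ lam ^ ((R₁ : ℤ) - G) := by
        refine zpow_le_zpow_right₀ hl.le ?_
        have := hgap k
        simp only [hN] at this ⊢
        omega
      have h9 : 4 * C * lam ^ ((R₁ : ℤ) - G) ≤ δ / 2 := by
        rw [zpow_sub₀ hl0.ne', zpow_natCast, zpow_natCast, ← mul_div_assoc,
          div_le_iff₀ (by positivity)]
        linarith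
      exact le_trans (mul_le_mul_of_nonneg_left h8 (by positivity)) h9
    linarith
  have hwin : ∀ k, ∀ j : ℤ, (R₁ : ℤ) < j → (N k : ℤ) + j ≤ (N (k + 1) : ℤ) - R →
      δ / 2 ≤ hd (ev h h' (N k + j) p) := by
    intro k j h1 h2
    have h4 := hnx5 k (g k) j h1 (by omega)
    rw [← hgs] at h4
    have h5 := hp (k + 1) (N k + j) (by simp only [hN] at h2 ⊢; omega)
    have h6 := hd_ge_sub (ev h h' (N k + j) p) (ev h h' (N k + j) (g (k + 1)))
    have h7 : 4 * C * lam ^ ((N k : ℤ) + j - (tm T G (k + 1) : ℕ)) ≤ μ / 2 := by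
      have h8 : lam ^ ((N k : ℤ) + j - (tm T G (k + 1) : ℕ)) ≤ lam ^ (-(R : ℤ)) := by
        refine zpow_le_zpow_right₀ hl.le ?_
        simp only [hN] at h2 ⊢
        omega
      have h9 : 4 * C * lam ^ (-(R : ℤ)) ≤ μ / 2 := by
        rw [zpow_neg, zpow_natCast, ← div_eq_mul_inv, div_le_iff₀ (by positivity)]
        linarith
      exact le_trans (mul_le_mul_of_nonneg_left h8 (by positivity)) h9
    linarith
  have hall : ∀ n : ℕ, N 0 < n → nr (ev h h' n p) ≤ c ∨ ∃ k, n = N k := by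
    intro n hn
    obtain ⟨k, hk1, hk2⟩ := block T (R := R) (G := G) (by omega) (n := n) (by exact_mod_cast hn)
    by_cases hj0 : (n : ℤ) - N k = 0
    · right
      exact ⟨k, by omega⟩
    left
    have e : (N k : ℤ) + ((n : ℤ) - N k) = n := by ring
    have key : δ / 2 ≤ hd (ev h h' n p) := by
      rcases le_or_gt ((n : ℤ) - N k) R₁ with hj | hj
      · have := hzone k ((n : ℤ) - N k) (by simp only [hN]; omega) hj hj0
        rwa [e] at this
      · have := hwin k ((n : ℤ) - N k) hj (by rw [e]; simp only [hN]; omega)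
        rwa [e] at this
    rw [nr_eq]
    linarith
  have htend : Tendsto (fun k : ℕ => 4 * C * (1 / lam) ^ k) atTop (𝓝 0) := by
    have h1 : Tendsto (fun k : ℕ => (1 / lam) ^ k) atTop (𝓝 0) :=
      tendsto_pow_atTop_nhds_zero_of_lt_one (by positivity) (by rw [div_lt_one hl0]; exact hl)
    simpa using h1.const_mul (4 * C)
  apply hLSM
  · exact fun n => ⟨nr_nonneg _, nr_le_half _⟩
  · intro ε hε
    obtain ⟨k₀, hk₀⟩ := (htend.eventually_le_const hε).exists_forall_of_atTop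
    filter_upwards [eventually_gt_atTop (N k₀)] with n hn
    have hn0 : N 0 < n := lt_of_le_of_lt (tm_le T G (Nat.zero_le k₀)) hn
    rcases hall n hn0 with h1 | ⟨k, rfl⟩
    · linarith
    · have hk : k₀ ≤ k := by
        by_contra hlt
        push Not at hlt
        have := tm_le T G hlt.le
        simp only [hN] at hn this
        omega
      have h2 := hcen k
      have h3 := hk₀ k hk
      have h4 := le_abs_self (nr (ev h h' (N k) p) - c)
      linarith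
  · intro ε hε
    obtain ⟨k₀, hk₀⟩ := (htend.eventually_le_const hε).exists_forall_of_atTop
    rw [frequently_atTop]
    intro n₀
    refine ⟨N (max k₀ n₀), ?_, ?_⟩
    · exact le_trans (le_max_right k₀ n₀) (tm_large T (by omega) _)
    · have h2 := hcen (max k₀ n₀)
      have h3 := hk₀ _ (le_max_left k₀ n₀)
      have h4 := neg_abs_le (nr (ev h h' (N (max k₀ n₀)) p) - c)
      linarith

end Pool.LSP
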