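import Pool.Agent.H96.LSP.NOI

/-!
# LSP: self-similarity of the spectrum, preparations

`hd` of `(x + e) / m` for odd `m`, and linear recurrences over a commutative ring whose last
coefficient is a unit.
-/

set_option autoImplicit false

namespace Pool.LSP

open Polynomial Filter Topology Finset

/-- Division by an odd number, lower bound. -/
theorem hd_div_ge (l : ℕ) (x : ℝ) (e : ℤ) :
    hd x / (2 * l + 1) ≤ hd ((x + e) / (2 * l + 1)) := by
  have hm : (0 : ℝ) < 2 * l + 1 := by positivity
  obtain ⟨p, hp⟩ := exists_half ((x + e) / (2 * l + 1))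
  rw [div_le_iff₀ hm, hp]
  have h := hd_le_half_int x ((2 * l + 1) * p + l - e)
  refine h.trans (le_of_eq ?_)
  have e1 : x - ((((2 * l + 1) * p + l - e : ℤ) : ℝ) + 1 / 2) =
      ((x + e) / (2 * l + 1) - (p + 1 / 2)) * (2 * l + 1) := by
    push_cast
    field_simp
    ring
  rw [e1, abs_mul, abs_of_pos hm]

/-- Division by an odd number, upper bound for a suitable residue class. -/
theorem hd_div_le (l : ℕ) (x : ℝ) : ∃ τ : ℤ, ∀ e : ℤ, (2 * (l : ℤ) + 1) ∣ e - τ →
    hd ((x + e) / (2 * l + 1)) ≤ hd x / (2 * l + 1) := by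
  have hm : (0 : ℝ) < 2 * l + 1 := by positivity
  obtain ⟨p, hp⟩ := exists_half x
  refine ⟨l - p, ?_⟩
  rintro e ⟨z, hz⟩
  have h := hd_le_half_int ((x + e) / (2 * l + 1)) z
  refine h.trans (le_of_eq ?_)
  have he : (e : ℝ) = l - p + (2 * l + 1) * z := by
    have : (e : ℤ) = l - p + (2 * l + 1) * z := by linarith
    rw [this]
    push_cast
    ring
  have e1 : (x + e) / (2 * l + 1) - (z + 1 / 2) = (x - (p + 1 / 2)) / (2 * l + 1) := by
    rw [he]
    field_simp
    ring
  rw [e1, abs_div, abs_of_pos hm, hp]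

/-- A linear recurrence whose last coefficient is a unit has solutions with prescribed values at
`N, N + 1, …, N + k`. -/
theorem back {R : Type*} [CommRing R] (k : ℕ) (c : Fin (k + 1) → R) (b : R) (hb : c 0 * b = 1) :
    ∀ (N : ℕ) (v : ℕ → R), ∃ init : Fin (k + 1) → R, ∀ j : ℕ, j ≤ k →
      (⟨k + 1, c⟩ : LinearRecurrence R).mkSol init (N + j) = v j := by
  intro N
  induction N with
  | zero =>
    intro v
    refine ⟨fun j => v j, fun j hj => ?_⟩
    have h := (⟨k + 1, c⟩ : LinearRecurrence R).mkSol_eq_init (fun j => v j) ⟨j, by simpa using Nat.lt_succ_of_le hj⟩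
    simpa using h
  | succ N ih =>
    intro v
    obtain ⟨init, hi⟩ := ih (fun j => if j = 0 then b * (v k - ∑ i : Fin k, c i.succ * v i)
      else v (j - 1))
    refine ⟨init, fun j hj => ?_⟩
    rcases Nat.lt_or_ge j k with h | h
    · have h1 := hi (j + 1) h
      simp only [Nat.add_eq_zero_iff, one_ne_zero, and_false, if_false, Nat.add_sub_cancel] at h1
      rw [← h1]
      congr 1
      ring
    · have hjk : j = k := le_antisymm hj h
      have hs := (⟨k + 1, c⟩ : LinearRecurrence R).is_sol_mkSol init N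
      have e1 : N + 1 + j = N + (k + 1) := by omega
      rw [e1]
      refine hs.trans ?_
      change ∑ i : Fin (k + 1), c i * (⟨k + 1, c⟩ : LinearRecurrence R).mkSol init (N + i) = v j
      rw [Fin.sum_univ_succ]
      have h0 := hi 0 (Nat.zero_le _)
      simp only [if_true] at h0
      have h2 : ∀ i : Fin k, (⟨k + 1, c⟩ : LinearRecurrence R).mkSol init (N + (i.succ : ℕ)) =
          v i := by
        intro i
        have h3 := hi (i + 1) i.2
        simp only [Nat.add_eq_zero_iff, one_ne_zero, and_false, if_false, Nat.add_sub_cancel] at h3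
        rw [← h3]
        simp
      simp only [h2]
      have h4 : (⟨k + 1, c⟩ : LinearRecurrence R).mkSol init (N + ((0 : Fin (k + 1)) : ℕ)) =
          b * (v k - ∑ i : Fin k, c i.succ * v i) := by
        rw [← h0]
        simp
      rw [h4, ← mul_assoc, hb, hjk]
      ring

end Pool.LSP
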