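import Pool.Agent.H85.LSP.SSA
import Pool.Agent.H17.LSP.RTS
import Pool.Agent.H96.LSP.CNT

/-!
# LSP: self-similarity of the spectrum

`P` monic and hyperbolic, `m = 2 l + 1` coprime to `P(0)`: if `t` belongs to `L^(0)(P)` then
`1/2 - (1/2 - t) / m` belongs to `L^(0)(P)`.
-/

set_option autoImplicit false

namespace Pool.LSP

open Polynomial Filter Topology Finset

/-- finitely many integer sequences, which solve the recurrence modulo `m`, and take all values
modulo `m` at each place -/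
theorem resid (P : ℤ[X]) (hP : P.Monic) (hd : 1 ≤ P.natDegree) (m : ℕ) (hm : m ≠ 0)
    (hc : IsCoprime (P.coeff 0) (m : ℤ)) :
    ∃ (ι : Type) (_ : Finite ι) (_ : Nonempty ι) (E : ι → ℕ → ℤ),
      (∀ c n, (m : ℤ) ∣ ∑ i ∈ range (P.natDegree + 1), P.coeff i * E c (n + i)) ∧
      ∀ (n : ℕ) (τ : ℤ), ∃ c, (m : ℤ) ∣ E c n - τ := by
  have : NeZero m := ⟨hm⟩
  obtain ⟨k, hk⟩ : ∃ k, P.natDegree = k + 1 := ⟨P.natDegree - 1, by omega⟩
  obtain ⟨c, hcd⟩ : ∃ c : Fin (k + 1) → ZMod m, c = fun i : Fin (k + 1) => -((P.coeff (i : ℕ) : ℤ) : ZMod m) :=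
    ⟨_, rfl⟩
  obtain ⟨u, v, huv⟩ := hc
  have hb : c 0 * (-(u : ZMod m)) = 1 := by
    rw [hcd]
    have h1 : ((u * P.coeff 0 + v * (m : ℤ) : ℤ) : ZMod m) = 1 := by
      rw [huv]
      simp
    push_cast at h1
    rw [ZMod.natCast_self, mul_zero, add_zero] at h1
    simp only [Fin.val_zero]
    rw [neg_mul_neg, mul_comm]
    exact h1
  have hcast : ∀ z : ZMod m, (((z.val : ℕ) : ℤ) : ZMod m) = z := by
    intro z
    rw [Int.cast_natCast, ZMod.natCast_zmod_val]
  refine ⟨Fin (k + 1) → ZMod m, inferInstance, inferInstance,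
    fun init n => (((⟨k + 1, c⟩ : LinearRecurrence (ZMod m)).mkSol init n).val : ℤ), ?_, ?_⟩
  · intro init n
    rw [← ZMod.intCast_zmod_eq_zero_iff_dvd]
    push_cast
    simp only [ZMod.natCast_zmod_val]
    have hs := (⟨k + 1, c⟩ : LinearRecurrence (ZMod m)).is_sol_mkSol init n
    have hs' : (⟨k + 1, c⟩ : LinearRecurrence (ZMod m)).mkSol init (n + (k + 1)) =
      ∑ i : Fin (k + 1), c i * (⟨k + 1, c⟩ : LinearRecurrence (ZMod m)).mkSol init (n + i) := hs
    rw [sum_range_succ, hk]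
    have h1 : P.coeff (k + 1) = 1 := by
      rw [← hk]
      exact hP
    rw [h1, hs', Int.cast_one, one_mul]
    rw [← Fin.sum_univ_eq_sum_range (fun i => ((P.coeff i : ℤ) : ZMod m) *
      (⟨k + 1, c⟩ : LinearRecurrence (ZMod m)).mkSol init (n + i)) (k + 1), ← sum_add_distrib]
    refine sum_eq_zero fun i _ => ?_
    rw [hcd]
    ring
  · intro n τ
    obtain ⟨init, hi⟩ := back k c (-(u : ZMod m)) hb n (fun _ => (τ : ZMod m))
    refine ⟨init, ?_⟩
    have h := hi 0 (Nat.zero_le _)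
    rw [add_zero] at h
    rw [← ZMod.intCast_zmod_eq_zero_iff_dvd]
    push_cast
    rw [ZMod.natCast_zmod_val, h]
    simp

/-- the recurrence -/
theorem xs_rec (P : ℤ[X]) (g : ℂ → ℂ[X]) (hg : Xi P 0 g) (n : ℕ) :
    ∑ i ∈ range (P.natDegree + 1), (P.coeff i : ℝ) * xs P g (n + i) = 0 := by
  classical
  have h1 : ∀ i : ℕ, (P.coeff i : ℝ) * xs P g (n + i) =
      (∑ α ∈ Out P, (g α).coeff 0 * α ^ n * ((P.coeff i : ℂ) * α ^ i)).re := by
    intro i
    unfold xs
    rw [← Complex.re_ofReal_mul, mul_sum]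
    congr 1
    refine sum_congr rfl fun α hα => ?_
    have h2 := eq_C_of_natDegree_le_zero (hg α hα).1
    rw [h2, eval_C, coeff_C_zero, pow_add]
    push_cast
    ring
  simp only [h1]
  rw [← Complex.re_sum, sum_comm]
  have h3 : ∀ α ∈ Out P, ∑ i ∈ range (P.natDegree + 1),
      (g α).coeff 0 * α ^ n * ((P.coeff i : ℂ) * α ^ i) = 0 := by
    intro α hα
    rw [← mul_sum]
    have h4 : ∑ i ∈ range (P.natDegree + 1), (P.coeff i : ℂ) * α ^ i = 0 := by
      have h5 : α ∈ Rt P := by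
        unfold Out at hα
        exact Multiset.mem_toFinset.1 (mem_filter.1 hα).1
      unfold Rt at h5
      have h6 := (mem_roots'.1 h5).2
      rw [IsRoot.def, eval_map, eval₂_eq_sum_range] at h6
      simpa using h6
    rw [h4, mul_zero]
  rw [sum_eq_zero h3, Complex.zero_re]

end Pool.LSP
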