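import Pool.Agent.H85.LSP.SSB

/-!
# LSP: self-similarity of the spectrum
-/

set_option autoImplicit false

namespace Pool.LSP

open Polynomial Filter Topology Finset

/-- `P` monic and hyperbolic, `2 l + 1` coprime to `P(0)`: if `t` belongs to `L^(0)(P)` then
`1/2 - (1/2 - t) / (2 l + 1)` belongs to `L^(0)(P)`. -/
theorem selfsim (P : ℤ[X]) (hP : P.Monic) (hn : (Rt P).Nodup) (hH : Hyp P)
    (hdeg : 1 ≤ P.natDegree) (l : ℕ) (hcop : IsCoprime (P.coeff 0) ((2 * l + 1 : ℕ) : ℤ)) {t : ℝ}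
    (ht : t ∈ Lk P 0) : 1 / 2 - (1 / 2 - t) / (2 * l + 1) ∈ Lk P 0 := by
  obtain ⟨g, hg, hlim⟩ := ht
  have hm : (0 : ℝ) < 2 * l + 1 := by positivity
  have hm1 : (1 : ℝ) ≤ 2 * l + 1 := by
    have : (0 : ℝ) ≤ (l : ℝ) := Nat.cast_nonneg l
    linarith
  obtain ⟨x, hx⟩ : ∃ x : ℕ → ℝ, x = fun n => xs P g n := ⟨_, rfl⟩
  have hlim' : limsup (fun n : ℕ => nr (x n)) atTop = t := by rw [hx]; exact hlim
  have hb : IsBoundedUnder (· ≤ ·) atTop (fun n : ℕ => nr (x n)) :=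
    isBoundedUnder_of ⟨1 / 2, fun n => nr_le_half _⟩
  have hco : IsCoboundedUnder (· ≤ ·) atTop (fun n : ℕ => nr (x n)) :=
    (isBoundedUnder_of ⟨0, fun n => nr_nonneg _⟩ :
      IsBoundedUnder (· ≥ ·) atTop (fun n : ℕ => nr (x n))).isCoboundedUnder_le
  obtain ⟨ι, _, _, E, hE1, hE2⟩ := resid P hP hdeg (2 * l + 1) (by omega) hcop
  have hw : ∀ n : ℕ, ∃ c, hd ((x n + E c n) / (2 * l + 1)) ≤ hd (x n) / (2 * l + 1) := by
    intro n
    obtain ⟨τ, hτ⟩ := hd_div_le l (x n)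
    obtain ⟨c, hc⟩ := hE2 n τ
    refine ⟨c, hτ _ ?_⟩
    have e : ((2 * l + 1 : ℕ) : ℤ) = 2 * (l : ℤ) + 1 := by push_cast; ring
    rwa [e] at hc
  obtain ⟨c, hc⟩ : ∃ c, ∀ ε : ℝ, 0 < ε → ∃ᶠ n in atTop, t - ε < nr (x n) ∧
      hd ((x n + E c n) / (2 * l + 1)) ≤ hd (x n) / (2 * l + 1) := by
    by_contra hcon
    have hcon' : ∀ c, ∃ ε : ℝ, 0 < ε ∧ ∀ᶠ n in atTop, ¬ (t - ε < nr (x n) ∧
        hd ((x n + E c n) / (2 * l + 1)) ≤ hd (x n) / (2 * l + 1)) := by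
      intro c
      by_contra h
      refine hcon ⟨c, fun ε hε h2 => h ⟨ε, hε, h2⟩⟩
    choose ε hε hev using hcon'
    obtain ⟨c0, hc0⟩ := Finite.exists_min ε
    have h1 : ∃ᶠ n in atTop, t - ε c0 < nr (x n) :=
      frequently_lt_of_lt_limsup hco (by rw [hlim']; linarith [hε c0])
    have h2 := eventually_all.2 hev
    obtain ⟨n, hn1, hn2⟩ := (h1.and_eventually h2).exists
    obtain ⟨c, hc⟩ := hw n
    exact hn2 c ⟨by linarith [hc0 c], hc⟩
  obtain ⟨s, hs⟩ : ∃ s : ℤ → ℝ, s = fun n : ℤ => (x n.toNat + E c n.toNat) / (2 * l + 1) :=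
    ⟨_, rfl⟩
  have hsn : ∀ n : ℕ, s n = (x n + E c n) / (2 * l + 1) := by
    intro n
    rw [hs]
    simp
  obtain ⟨g', hg', ht'⟩ := t_cnv P hP hn hH s (by
    intro n hn0
    obtain ⟨n', rfl⟩ := Int.eq_ofNat_of_zero_le hn0
    obtain ⟨z, hz⟩ := hE1 c n'
    refine ⟨z, ?_⟩
    unfold Pr
    have h1 : ∀ i : ℕ, s ((n' : ℤ) + i) = (x (n' + i) + E c (n' + i)) / (2 * l + 1) := by
      intro i
      have e : ((n' : ℤ) + i) = ((n' + i : ℕ) : ℤ) := by push_cast; ring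
      rw [e, hsn]
    simp only [h1]
    have h2 : ∑ i ∈ range (P.natDegree + 1), (P.coeff i : ℝ) *
        ((x (n' + i) + E c (n' + i)) / (2 * l + 1)) =
        (∑ i ∈ range (P.natDegree + 1), (P.coeff i : ℝ) * x (n' + i) +
          ((∑ i ∈ range (P.natDegree + 1), P.coeff i * E c (n' + i) : ℤ) : ℝ)) /
            (2 * l + 1) := by
      push_cast
      rw [← sum_add_distrib, sum_div]
      refine sum_congr rfl fun i _ => ?_
      ring
    rw [h2, hz, hx, xs_rec P g hg n', zero_add]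
    push_cast
    field_simp)
  refine ⟨g', hg', ?_⟩
  have hsub : ∀ ε : ℝ, (1 / 2 - (t + ε)) / (2 * (l : ℝ) + 1) =
      (1 / 2 - t) / (2 * l + 1) - ε / (2 * l + 1) := by
    intro ε
    ring
  apply t_lsm _ _ (fun n => ⟨nr_nonneg _, nr_le_half _⟩)
  · intro ε hε
    have e1 : ∀ᶠ n in atTop, nr (x n) < t + ε / 2 :=
      eventually_lt_of_limsup_lt (by rw [hlim']; linarith) hb
    have e2 := (tendsto_order.1 ht').2 (ε / 2) (by positivity)
    filter_upwards [e1, e2] with n h1 h2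
    have h3 := hd_div_ge l (x n) (E c n)
    rw [← hsn, hd_eq, hd_eq] at h3
    have h4 : (1 / 2 - (t + ε / 2)) / (2 * (l : ℝ) + 1) ≤ (1 / 2 - nr (x n)) / (2 * l + 1) :=
      div_le_div_of_nonneg_right (by linarith) hm.le
    have h5 : ε / 2 / (2 * (l : ℝ) + 1) ≤ ε / 2 := div_le_self (by positivity) hm1
    rw [hsub] at h4
    linarith
  · intro ε hε
    have e2 := (tendsto_order.1 ht').1 (-(ε / 2)) (by linarith)
    refine ((hc (ε / 2) (by positivity)).and_eventually e2).mono ?_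
    rintro n ⟨⟨h1, h3⟩, h2⟩
    rw [← hsn, hd_eq, hd_eq] at h3
    have h4 : (1 / 2 - nr (x n)) / (2 * (l : ℝ) + 1) ≤
        (1 / 2 - (t + -(ε / 2))) / (2 * l + 1) :=
      div_le_div_of_nonneg_right (by linarith) hm.le
    have h5 : ε / 2 / (2 * (l : ℝ) + 1) ≤ ε / 2 := div_le_self (by positivity) hm1
    rw [hsub] at h4
    have h6 : -(ε / 2) / (2 * (l : ℝ) + 1) = -(ε / 2 / (2 * (l : ℝ) + 1)) := by ring
    rw [h6] at h4
    linarith

end Pool.LSP
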