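import Pool.Agent.H85.LSP.SSC
import Pool.Agent.H85.LSP.All2

/-!
# LSP: the spectrum contains an interval only if it contains a terminal interval
-/

set_option autoImplicit false

namespace Pool.LSP

open Polynomial Filter Topology Finset

theorem nr_cont : Continuous nr := by
  refine (LipschitzWith.of_dist_le_mul (K := 1) fun x y => ?_).continuous
  rw [Real.dist_eq, Real.dist_eq]
  simpa using abs_nr_sub x y

/-- a sequence which approaches `1/2` modulo one (Baire) -/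
theorem ex_half (β : ℂ) (hβ : 1 < ‖β‖) : ∃ z : ℂ, ∀ j : ℕ, ∃ n : ℕ, j ≤ n ∧
    1 / 2 - 1 / ((j : ℝ) + 1) < nr ((z * β ^ n).re) := by
  obtain ⟨O, hO⟩ : ∃ O : ℕ → Set ℂ, O = fun j => {z : ℂ | ∃ n : ℕ, j ≤ n ∧
    1 / 2 - 1 / ((j : ℝ) + 1) < nr ((z * β ^ n).re)} := ⟨_, rfl⟩
  have hop : ∀ j, IsOpen (O j) := by
    intro j
    have e : O j = ⋃ n : ℕ, ⋃ _ : j ≤ n, {z : ℂ | 1 / 2 - 1 / ((j : ℝ) + 1) <
        nr ((z * β ^ n).re)} := by
      rw [hO]
      ext z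
      simp
    rw [e]
    refine isOpen_iUnion fun n => isOpen_iUnion fun _ => ?_
    exact isOpen_lt continuous_const (nr_cont.comp
      (Complex.continuous_re.comp (continuous_id.mul continuous_const)))
  have hde : ∀ j, Dense (O j) := by
    intro j
    rw [Metric.dense_iff]
    intro z0 r hr
    obtain ⟨n0, hn0⟩ := pow_unbounded_of_one_lt (1 / r) hβ
    obtain ⟨n, hn⟩ : ∃ n, n = max n0 j := ⟨_, rfl⟩
    have h1 : 1 / r < ‖β‖ ^ n :=
      hn0.trans_le (pow_le_pow_right₀ hβ.le (by rw [hn]; exact le_max_left _ _))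
    have hb0 : 0 < ‖β‖ ^ n := by positivity
    have hbn : β ^ n ≠ 0 := by
      intro h
      rw [← norm_pow, h, norm_zero] at hb0
      exact lt_irrefl _ hb0
    obtain ⟨p, hp⟩ := exists_half ((z0 * β ^ n).re)
    obtain ⟨s, hs⟩ : ∃ s : ℝ, s = (p + 1 / 2) - (z0 * β ^ n).re := ⟨_, rfl⟩
    have hs1 : |s| ≤ 1 / 2 := by
      rw [hs, abs_sub_comm, ← hp]
      exact hd_le_half _
    refine ⟨z0 + (s : ℂ) / β ^ n, ?_, ?_⟩
    · rw [Metric.mem_ball, dist_eq_norm, add_sub_cancel_left, norm_div, norm_pow,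
        Complex.norm_real, Real.norm_eq_abs, div_lt_iff₀ hb0]
      rw [div_lt_iff₀ hr] at h1
      have : |s| < 1 := by linarith
      linarith [mul_comm r (‖β‖ ^ n)]
    · rw [hO]
      refine ⟨n, by rw [hn]; exact le_max_right _ _, ?_⟩
      have e : ((z0 + (s : ℂ) / β ^ n) * β ^ n).re = (p : ℝ) + 1 / 2 := by
        rw [add_mul, div_mul_cancel₀ _ hbn, Complex.add_re, Complex.ofReal_re, hs]
        ring
      rw [e, nr_half_int]
      have : (0 : ℝ) < 1 / ((j : ℝ) + 1) := by positivity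
      linarith
  obtain ⟨z, hz⟩ := (dense_iInter_of_isOpen_nat hop hde).nonempty
  refine ⟨z, fun j => ?_⟩
  have h := Set.mem_iInter.1 hz j
  rw [hO] at h
  exact h

theorem half_mem (P : ℤ[X]) (β : ℂ) (hβ : β ∈ Out P) : (1 / 2 : ℝ) ∈ Lk P 0 := by
  have hβ1 : 1 < ‖β‖ := by
    classical
    unfold Out at hβ
    exact (mem_filter.1 hβ).2
  obtain ⟨z, hz⟩ := ex_half β hβ1
  obtain ⟨g, hg, hgx⟩ := (t_mem P 0).1 β hβ (C z) (by simp)
  refine ⟨g, hg, ?_⟩
  apply t_lsm _ _ (fun n => ⟨nr_nonneg _, nr_le_half _⟩)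
  · intro ε hε
    exact Eventually.of_forall fun n => (nr_le_half _).trans (by linarith)
  · intro ε hε
    rw [frequently_atTop]
    intro N
    obtain ⟨M, hM⟩ := exists_nat_one_div_lt hε
    obtain ⟨n, hn, h⟩ := hz (max N M)
    refine ⟨n, (le_max_left _ _).trans hn, ?_⟩
    rw [hgx, eval_C]
    have h1 : 1 / (((max N M : ℕ) : ℝ) + 1) ≤ 1 / ((M : ℝ) + 1) := by
      apply one_div_le_one_div_of_le (by positivity)
      have : (M : ℝ) ≤ ((max N M : ℕ) : ℝ) := by exact_mod_cast le_max_right _ _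
      linarith
    linarith

/-- The exceptional case. -/
theorem exc_case (P : ℤ[X]) (hA : Adm P) (hE : Exc P) (hI : Itv P 0) : Ter P 0 := by
  obtain ⟨β, hβ⟩ := (t_out).1 P hA
  have hβ1 : β ∈ Rt P ∧ 1 < ‖β‖ := by
    classical
    unfold Out at hβ
    exact ⟨Multiset.mem_toFinset.1 (mem_filter.1 hβ).1, (mem_filter.1 hβ).2⟩
  have hH : Hyp P := by
    obtain ⟨ρ, hρ⟩ := hE.2
    intro α hα
    rw [hρ α hα, ← hρ β hβ1.1]
    exact hβ1.2.ne'
  obtain ⟨a, b, hab, hI⟩ := hI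
  have hb : b ≤ 1 / 2 := by
    obtain ⟨g, hg, hl⟩ := hI ⟨hab.le, le_rfl⟩
    rw [← hl]
    refine limsup_le_of_le ?_ (Eventually.of_forall fun n => nr_le_half _)
    exact (isBoundedUnder_of ⟨0, fun n => nr_nonneg _⟩ :
      IsBoundedUnder (· ≥ ·) atTop fun n : ℕ => nr (xs P g n)).isCoboundedUnder_le
  obtain ⟨A, hAd⟩ : ∃ A : ℕ, A = (P.coeff 0).natAbs := ⟨_, rfl⟩
  have hA1 : (1 : ℝ) ≤ A := by
    have : 1 ≤ A := by
      rw [hAd]
      exact Nat.one_le_iff_ne_zero.2 (Int.natAbs_ne_zero.2 hA.zero)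
    exact_mod_cast this
  obtain ⟨e1, he1⟩ : ∃ e1 : ℝ, e1 = 1 / 2 - (a + b) / 2 := ⟨_, rfl⟩
  obtain ⟨e2, he2⟩ : ∃ e2 : ℝ, e2 = 1 / 2 - a := ⟨_, rfl⟩
  have h10 : 0 < e1 := by rw [he1]; linarith
  have h12 : e1 < e2 := by rw [he1, he2]; linarith
  obtain ⟨η, hη⟩ : ∃ η : ℝ, η = min (min e1 ((e2 - e1) / (2 * A))) (1 / 4) := ⟨_, rfl⟩
  have hη0 : 0 < η := by
    rw [hη]
    have : 0 < (e2 - e1) / (2 * A) := div_pos (by linarith) (by linarith)
    exact lt_min (lt_min h10 this) (by norm_num)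
  have hη1 : η ≤ e1 := by rw [hη]; exact (min_le_left _ _).trans (min_le_left _ _)
  have hη2 : η ≤ (e2 - e1) / (2 * A) := by
    rw [hη]; exact (min_le_left _ _).trans (min_le_right _ _)
  have hη3 : η ≤ 1 / 4 := by rw [hη]; exact min_le_right _ _
  refine ⟨1 / 2 - η, by linarith, by linarith, ?_⟩
  rintro c ⟨hc1, hc2⟩
  rcases eq_or_lt_of_le hc2 with hc3 | hc3
  · rw [hc3]
    exact half_mem P β hβ
  obtain ⟨ε, hε⟩ : ∃ ε : ℝ, ε = 1 / 2 - c := ⟨_, rfl⟩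
  have hε0 : 0 < ε := by rw [hε]; linarith
  have hε1 : ε ≤ η := by rw [hε]; linarith
  have h2A : (0 : ℝ) < 2 * A := by linarith
  obtain ⟨j, hj⟩ : ∃ j : ℕ, j = ⌈(e1 / ε - 1) / (2 * A)⌉₊ := ⟨_, rfl⟩
  have hj1 : e1 / ε ≤ 2 * A * j + 1 := by
    have h := Nat.le_ceil ((e1 / ε - 1) / (2 * (A : ℝ)))
    rw [← hj, div_le_iff₀ h2A] at h
    linarith
  have hj2 : 2 * A * j + 1 < e1 / ε + 2 * A := by
    have h0 : 0 ≤ (e1 / ε - 1) / (2 * (A : ℝ)) := by
      apply div_nonneg _ h2A.le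
      have : 1 ≤ e1 / ε := by
        rw [le_div_iff₀ hε0]
        linarith
      linarith
    have h := Nat.ceil_lt_add_one h0
    rw [← hj] at h
    have h3 : (2 * (A : ℝ)) * j < 2 * A * ((e1 / ε - 1) / (2 * A) + 1) :=
      mul_lt_mul_of_pos_left h h2A
    have h4 : (2 * (A : ℝ)) * ((e1 / ε - 1) / (2 * A) + 1) = e1 / ε - 1 + 2 * A := by
      field_simp
    linarith
  have hj3 : (2 * A * j + 1) * ε ≤ e2 := by
    have h5 : 2 * (A : ℝ) * ε ≤ e2 - e1 := by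
      have h6 : ε ≤ (e2 - e1) / (2 * A) := hε1.trans hη2
      rw [le_div_iff₀ h2A] at h6
      linarith
    have h7 : (2 * A * j + 1) * ε < (e1 / ε + 2 * A) * ε := mul_lt_mul_of_pos_right hj2 hε0
    have h8 : (e1 / ε + 2 * A) * ε = e1 + 2 * A * ε := by
      field_simp
    linarith
  have hj4 : e1 ≤ (2 * A * j + 1) * ε := by
    rw [div_le_iff₀ hε0] at hj1
    exact hj1
  have hcop : IsCoprime (P.coeff 0) ((2 * (A * j) + 1 : ℕ) : ℤ) := by
    rcases Int.natAbs_eq (P.coeff 0) with h | h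
    · refine ⟨-(2 * j), 1, ?_⟩
      rw [← hAd] at h
      rw [h]
      push_cast
      ring
    · refine ⟨2 * j, 1, ?_⟩
      rw [← hAd] at h
      rw [h]
      push_cast
      ring
  have hmem := selfsim P hE.1 hA.nodup hH hA.deg (A * j) hcop
    (t := 1 / 2 - (2 * A * j + 1) * ε) (hI ⟨by linarith, by linarith⟩)
  have e : 1 / 2 - (1 / 2 - (1 / 2 - (2 * A * j + 1) * ε)) / (2 * ((A * j : ℕ) : ℝ) + 1) = c := by
    have h9 : (2 * ((A * j : ℕ) : ℝ) + 1) = 2 * A * j + 1 := by push_cast; ring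
    have h10 : (2 * (A : ℝ) * j + 1) ≠ 0 := by positivity
    rw [h9, sub_sub_cancel, mul_div_cancel_left₀ _ h10, hε]
    ring
  rw [e] at hmem
  exact hmem

/-- The answer to the question. -/
theorem main3 : ∀ P : ℤ[X], Adm P → ∀ k : ℕ, Itv P k → Ter P k := by
  intro P hP k hI
  by_cases h : k = 0 → ¬ Exc P
  · exact (main2 P hP).1 k h
  · rw [Classical.not_imp, not_not] at h
    obtain ⟨rfl, hE⟩ := h
    exact exc_case P hP hE hI

end Pool.LSP
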